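import Pool.Agent.SMT.Defs
import Pool.Agent.SMG.ALV

/-! ALV: phase `i` only depends on the earlier special directions. -/

namespace SMT

open SMG

variable {Pos Dir T U : Type} {N D : ℕ}

theorem cell_congr (C : TCert T U N) (G : Geo Pos Dir (Fin N → ZMod D)) (R : TRoles N D U C.cell)
    {P P' : Fin N → Dir} {i : ℕ} (h : ∀ l : Fin N, (l : ℕ) < i → P l = P' l) (x : Pos) :
    C.cell i (unitOf C G R P x) = C.cell i (unitOf C G R P' x) := by
  unfold unitOf
  refine R.adapted i _ _ fun l hl => ?_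
  exact delta_congr G h x l hl

theorem slotOK_congr (C : TCert T U N) (G : Geo Pos Dir (Fin N → ZMod D))
    (R : TRoles N D U C.cell)
    {P P' : Fin N → Dir} {i : ℕ} (h : ∀ l : Fin N, (l : ℕ) < i → P l = P' l) (p : Dir)
    (j : JJ Pos T) : slotOK C G R P i p j ↔ slotOK C G R P' i p j := by
  have aux : ∀ {Q Q' : Fin N → Dir}, (∀ l : Fin N, (l : ℕ) < i → Q l = Q' l) →
      slotOK C G R Q i p j → slotOK C G R Q' i p j := by
    intro Q Q' hQ hs
    obtain ⟨h1, h2, h3, h4, h5⟩ := hs
    refine ⟨fun l hl => ?_, ?_, ?_, h4, h5⟩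
    · rw [← hQ l hl]
      exact h1 l hl
    · exact C.join_cell i _ _ _ _ (cell_congr C G R hQ j.1.1) h2
    · rw [← cell_congr C G R hQ j.1.1, ← cell_congr C G R hQ j.2.1]
      exact h3
  exact ⟨aux h, aux (fun l hl => (h l hl).symm)⟩

theorem phaseList_congr [Fintype Pos] [Fintype Dir] [Fintype T] (C : TCert T U N)
    (G : Geo Pos Dir (Fin N → ZMod D)) (R : TRoles N D U C.cell)
    {P P' : Fin N → Dir} {i : ℕ} (h : ∀ l : Fin N, (l : ℕ) < i → P l = P' l)
    (X : Dir → JJ Pos T → Bool) :
    phaseList C G R P i X = phaseList C G R P' i X := by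
  have e : (slotOK C G R P i : Dir → JJ Pos T → Prop) = slotOK C G R P' i := by
    funext p j
    exact propext (slotOK_congr C G R h p j)
  unfold phaseList
  rw [e]

theorem phaseList_length [Fintype Pos] [Fintype Dir] [Fintype T] (C : TCert T U N)
    (G : Geo Pos Dir (Fin N → ZMod D)) (R : TRoles N D U C.cell)
    (P : Fin N → Dir) (i : ℕ) (X X' : Dir → JJ Pos T → Bool) :
    (phaseList C G R P i X).length = (phaseList C G R P i X').length := by
  unfold phaseList
  rw [List.length_flatMap, List.length_flatMap]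
  rfl

theorem pred_congr (C : TCert T U N) (G : Geo Pos Dir (Fin N → ZMod D))
    (R : TRoles N D U C.cell)
    {P P' : Fin N → Dir} {i : ℕ} (h : ∀ l : Fin N, (l : ℕ) < i → P l = P' l)
    (O : Finset (Sym2 (VV Pos T))) (p : Dir) (j : JJ Pos T) :
    pred C G R P O i p j = pred C G R P' O i p j := by
  unfold pred
  by_cases hs : slotOK C G R P i p j
  · rw [if_pos hs, if_pos ((slotOK_congr C G R h p j).1 hs)]
  · rw [if_neg hs, if_neg (fun h1 => hs ((slotOK_congr C G R h p j).2 h1))]

end SMT
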