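import Pool.Agent.SMT.Defs
import Pool.Agent.SMG.BLK

/-! BLK: on a clean block of the special direction `P i` all positions are in one cell of phase
`i`, and all units of this cell are equally frequent. -/

namespace SMT

open SMG

variable {Pos Dir T U : Type} {N D : ℕ}

theorem blk_cell (C : TCert T U N) (G : Geo Pos Dir (Fin N → ZMod D)) (R : TRoles N D U C.cell)
    (P : Fin N → Dir) (hP : Function.Injective P) (i : Fin N) (x₀ x : Pos)
    (hx : x₀ ∉ nonclean G P i) (hb : G.blk (P i) x = G.blk (P i) x₀) :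
    C.cell (i : ℕ) (unitOf C G R P x) = C.cell (i : ℕ) (unitOf C G R P x₀) := by
  unfold unitOf
  exact R.adapted (i : ℕ) _ _ (fun l hl => blk_delta_lt G P hP i x₀ x hx hb l hl)

theorem blk_equi (C : TCert T U N) (G : Geo Pos Dir (Fin N → ZMod D)) (R : TRoles N D U C.cell)
    (hD : 0 < D) (P : Fin N → Dir) (hP : Function.Injective P) (i : Fin N) (x₀ : Pos)
    (hx : x₀ ∉ nonclean G P i) (u u' : U)
    (hu : C.cell (i : ℕ) u = C.cell (i : ℕ) (unitOf C G R P x₀))
    (hu' : C.cell (i : ℕ) u' = C.cell (i : ℕ) (unitOf C G R P x₀)) :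
    Nat.card {x // G.blk (P i) x = G.blk (P i) x₀ ∧ unitOf C G R P x = u} =
      Nat.card {x // G.blk (P i) x = G.blk (P i) x₀ ∧ unitOf C G R P x = u'} := by
  have key : ∀ v : U, Nat.card {x // G.blk (P i) x = G.blk (P i) x₀ ∧ unitOf C G R P x = v} =
      Nat.card (({l : Fin N // (l : ℕ) < i} → ZMod D) × {δ : Fin N → ZMod D //
        (∀ l : Fin N, l < i → δ l = delta G P x₀ l) ∧ R.unit δ = v}) := by
    intro v
    let f : {x // G.blk (P i) x = G.blk (P i) x₀ ∧ unitOf C G R P x = v} →
        (({l : Fin N // (l : ℕ) < i} → ZMod D) × {δ : Fin N → ZMod D //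
        (∀ l : Fin N, l < i → δ l = delta G P x₀ l) ∧ R.unit δ = v}) := fun x =>
      (fun l => G.arc (P i) x.1 l.1, ⟨delta G P x.1,
        fun l hl => blk_delta_lt G P hP i x₀ x.1 hx x.2.1 l (Fin.lt_def.1 hl), x.2.2⟩)
    have hf : Function.Bijective f := by
      constructor
      · intro x x' hxx
        apply Subtype.ext
        have h1 : (fun l : {l : Fin N // (l : ℕ) < i} => G.arc (P i) x.1 l.1) =
            fun l => G.arc (P i) x'.1 l.1 := congrArg Prod.fst hxx
        have h2 : delta G P x.1 = delta G P x'.1 :=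
          congrArg Subtype.val (congrArg Prod.snd hxx)
        refine (G.arc_inj (P i) x.1 x'.1 (x'.2.1.trans x.2.1.symm) ?_).symm
        funext l
        rcases lt_or_ge (l : ℕ) (i : ℕ) with hl | hl
        · exact (congrFun h1 ⟨l, hl⟩).symm
        · have h3 := congrFun h2 l
          rw [blk_delta_ge G P hP i x₀ x.1 hx x.2.1 l hl,
            blk_delta_ge G P hP i x₀ x'.1 hx x'.2.1 l hl] at h3
          exact (add_right_cancel h3).symm
      · rintro ⟨s, δ, hδ, hδv⟩
        obtain ⟨x', hb, ha⟩ := G.arc_ex (P i) x₀ (fun l => if h : (l : ℕ) < i then s ⟨l, h⟩ else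
          δ l - (delta G P x₀ l - G.arc (P i) x₀ l))
        have hdel : delta G P x' = δ := by
          funext l
          rcases lt_or_ge (l : ℕ) (i : ℕ) with hl | hl
          · rw [blk_delta_lt G P hP i x₀ x' hx hb l hl, hδ l (Fin.lt_def.2 hl)]
          · rw [blk_delta_ge G P hP i x₀ x' hx hb l hl, ha]
            simp only
            rw [dif_neg (by omega)]
            ring
        refine ⟨⟨x', hb, ?_⟩, ?_⟩
        · unfold unitOf
          rw [hdel, hδv]
        · refine Prod.ext ?_ (Subtype.ext hdel)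
          funext l
          show G.arc (P i) x' l.1 = s l
          rw [ha]
          simp only
          rw [dif_pos l.2]
    exact Nat.card_congr (Equiv.ofBijective f hf)
  rw [key u, key u', Nat.card_prod, Nat.card_prod]
  congr 1
  exact R.equi i (delta G P x₀) u u' hu hu'

end SMT
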