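import Pool.Agent.SMT.NDP
import Pool.Agent.SMG.COV

/-! COV: the closed vertices cover all edges which are not in a special direction. -/

namespace SMT

open SMG

variable {Pos Dir T U : Type} {N D : ℕ}

theorem cover [Fintype Pos] [Fintype Dir] [Fintype T] (C : TCert T U N)
    (G : Geo Pos Dir (Fin N → ZMod D)) (R : TRoles N D U C.cell)
    (P : Fin N → Dir) (X : Fin N → Dir → JJ Pos T → Bool) (e : Sym2 (VV Pos T))
    (he : e ∈ stream C G R P X) :
    (∃ v ∈ Zset C G R P, Sum.inl v ∈ e) ∨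
      ∃ i j : Fin N, i ≤ j ∧ e ∈ Spec C G R P (i : ℕ) (P j) := by
  classical
  rcases (mem_stream C G R P X e).1 he with ⟨i, p, j, τ, hok, rfl⟩ | ⟨v, hv, rfl⟩
  swap
  · left
    exact ⟨v, hv, Sym2.mem_mk_left _ _⟩
  obtain ⟨hP, hjoin, hcell, hne, hblk⟩ := id hok
  by_cases hp : ∃ l, p = P l
  · obtain ⟨l, rfl⟩ := hp
    right
    refine ⟨i, l, ?_, j, τ, _, hok, rfl⟩
    by_contra hlt
    exact hP l (by simpa using hlt) rfl
  · left
    by_cases hg : ∃ l, ¬ G.good (P l) j.1.1
    · refine ⟨(j.1.1, j.1.2, τ), ?_, Sym2.mem_mk_left _ _⟩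
      simp only [Zset, Finset.mem_filter, Finset.mem_univ, true_and]
      exact Or.inl hg
    · push Not at hg hp
      have hd : delta G P j.2.1 = delta G P j.1.1 := by
        funext l
        simp only [delta]
        refine Finset.sum_congr rfl (fun k _ => ?_)
        rw [G.good_spec (P k) p j.1.1 j.2.1 (hp k) hblk.symm (hg k)]
      have hu : unitOf C G R P j.2.1 = unitOf C G R P j.1.1 := by
        simp only [unitOf, hd]
      have h3 := C.indep (i : ℕ) (unitOf C G R P j.1.1) j.1.2 j.2.2 hjoin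
      by_cases ho : C.opn (unitOf C G R P j.1.1) j.1.2
      · refine ⟨(j.2.1, j.2.2, xor τ (X i p j)), ?_, Sym2.mem_mk_right _ _⟩
        simp only [Zset, Finset.mem_filter, Finset.mem_univ, true_and]
        right
        rw [hu]
        exact fun h4 => h3 ⟨ho, h4⟩
      · refine ⟨(j.1.1, j.1.2, τ), ?_, Sym2.mem_mk_left _ _⟩
        simp only [Zset, Finset.mem_filter, Finset.mem_univ, true_and]
        right
        exact ho

open Classical in
/-- The size of an output matching. -/
theorem out_card [Fintype Pos] [Fintype Dir] [Fintype T] (C : TCert T U N)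
    (G : Geo Pos Dir (Fin N → ZMod D)) (R : TRoles N D U C.cell)
    (P : Fin N → Dir) (X : Fin N → Dir → JJ Pos T → Bool) (O : Finset (Sym2 (VV Pos T)))
    (hO : ∀ e ∈ O, e ∈ stream C G R P X) (hM : IsMatch O) (Q : ℕ)
    (hQ : ∀ i j : Fin N, i ≤ j →
      (O.filter (fun e => e ∈ Spec C G R P (i : ℕ) (P j))).card ≤ Q) :
    O.card ≤ (Zset C G R P).card + N ^ 2 * Q := by
  have h1 : O ⊆ O.filter (fun e => ∃ v ∈ Zset C G R P, Sum.inl v ∈ e) ∪
      ((Finset.univ : Finset (Fin N × Fin N)).filter (fun s => s.1 ≤ s.2)).biUnion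
        (fun s => O.filter (fun e => e ∈ Spec C G R P (s.1 : ℕ) (P s.2))) := by
    intro e he
    rcases cover C G R P X e (hO e he) with h | ⟨i, j, hij, h⟩
    · exact Finset.mem_union_left _ (Finset.mem_filter.2 ⟨he, h⟩)
    · refine Finset.mem_union_right _ (Finset.mem_biUnion.2 ⟨(i, j), ?_, ?_⟩)
      · simp [hij]
      · exact Finset.mem_filter.2 ⟨he, h⟩
  have h2 : (O.filter (fun e => ∃ v ∈ Zset C G R P, Sum.inl v ∈ e)).card ≤
      (Zset C G R P).card := by
    have h3 := match_cover ((Zset C G R P).map ⟨Sum.inl, Sum.inl_injective⟩)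
      (O.filter (fun e => ∃ v ∈ Zset C G R P, Sum.inl v ∈ e)) ?_ ?_
    · rw [Finset.card_map] at h3
      exact h3
    · intro e he f hf v h4 h5
      exact hM e (Finset.mem_filter.1 he).1 f (Finset.mem_filter.1 hf).1 v h4 h5
    · intro e he
      obtain ⟨v, hv, hve⟩ := (Finset.mem_filter.1 he).2
      exact ⟨Sum.inl v, Finset.mem_map.2 ⟨v, hv, rfl⟩, hve⟩
  have h4 : (((Finset.univ : Finset (Fin N × Fin N)).filter (fun s => s.1 ≤ s.2)).biUnion
        (fun s => O.filter (fun e => e ∈ Spec C G R P (s.1 : ℕ) (P s.2)))).card ≤ N ^ 2 * Q := by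
    refine (Finset.card_biUnion_le).trans ?_
    refine (Finset.sum_le_card_nsmul _ _ Q ?_).trans ?_
    · intro s hs
      exact hQ s.1 s.2 (Finset.mem_filter.1 hs).2
    · rw [smul_eq_mul]
      refine Nat.mul_le_mul_right _ ?_
      refine (Finset.card_filter_le _ _).trans ?_
      simp [sq]
  calc O.card ≤ _ := Finset.card_le_card h1
    _ ≤ _ := Finset.card_union_le _ _
    _ ≤ _ := Nat.add_le_add h2 h4

end SMT
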