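import Pool.Agent.SMT.Defs

/-! NDP: the hard stream is a stream of pairwise different edges of a bipartite graph. -/

namespace SMT

open SMG

variable {Pos Dir T U : Type} {N D : ℕ}

/-- The edge determines the slot (left end first) and the twin bits. -/
theorem edg_inj (left : T → Bool) {x x' y y' : Pos} {a b c d : T} {τ τ' ρ ρ' : Bool}
    (ha : left a = true) (hb : left b = false) (hc : left c = true) (hd : left d = false)
    (h : edg x a τ x' b τ' = edg y c ρ y' d ρ') :
    x = y ∧ a = c ∧ τ = ρ ∧ x' = y' ∧ b = d ∧ τ' = ρ' := by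
  unfold edg at h
  rw [Sym2.eq_iff] at h
  rcases h with ⟨h1, h2⟩ | ⟨h1, h2⟩
  · simp only [Sum.inl.injEq, Prod.mk.injEq] at h1 h2
    exact ⟨h1.1, h1.2.1, h1.2.2, h2.1, h2.2.1, h2.2.2⟩
  · simp only [Sum.inl.injEq, Prod.mk.injEq] at h1 h2
    rw [h1.2.1, hd] at ha
    exact absurd ha (by simp)

private theorem ndp_mem_phaseList [Fintype Pos] [Fintype Dir] [Fintype T] (C : TCert T U N)
    (G : Geo Pos Dir (Fin N → ZMod D)) (R : TRoles N D U C.cell)
    (P : Fin N → Dir) (i : ℕ) (X : Dir → JJ Pos T → Bool) (e : Sym2 (VV Pos T)) :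
    e ∈ phaseList C G R P i X ↔
      ∃ (p : Dir) (j : JJ Pos T) (τ : Bool), slotOK C G R P i p j ∧
        e = edg j.1.1 j.1.2 τ j.2.1 j.2.2 (xor τ (X p j)) := by
  classical
  unfold phaseList
  rw [List.mem_flatMap]
  constructor
  · rintro ⟨⟨p, j⟩, hs, he⟩
    have hs' : slotOK C G R P i p j := by
      have := Finset.mem_toList.1 hs
      exact (Finset.mem_filter.1 this).2
    simp only [List.mem_cons, List.not_mem_nil, or_false] at he
    rcases he with he | he
    · refine ⟨p, j, false, hs', ?_⟩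
      rw [he, Bool.false_xor]
    · refine ⟨p, j, true, hs', ?_⟩
      rw [he, Bool.true_xor]
  · rintro ⟨p, j, τ, hs, he⟩
    refine ⟨(p, j), Finset.mem_toList.2 (Finset.mem_filter.2 ⟨Finset.mem_univ _, hs⟩), ?_⟩
    simp only [List.mem_cons, List.not_mem_nil, or_false]
    cases τ
    · left; rw [he, Bool.false_xor]
    · right; rw [he, Bool.true_xor]

private theorem ndp_mem_pendList [Fintype Pos] [Fintype T] (C : TCert T U N)
    (G : Geo Pos Dir (Fin N → ZMod D)) (R : TRoles N D U C.cell)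
    (P : Fin N → Dir) (e : Sym2 (VV Pos T)) :
    e ∈ pendList C G R P ↔ ∃ v ∈ Zset C G R P, e = s(Sum.inl v, Sum.inr v) := by
  unfold pendList
  rw [List.mem_map]
  constructor
  · rintro ⟨v, hv, he⟩
    exact ⟨v, Finset.mem_toList.1 hv, he.symm⟩
  · rintro ⟨v, hv, he⟩
    exact ⟨v, Finset.mem_toList.2 hv, he.symm⟩

private theorem ndp_mem_stream [Fintype Pos] [Fintype Dir] [Fintype T] (C : TCert T U N)
    (G : Geo Pos Dir (Fin N → ZMod D)) (R : TRoles N D U C.cell)
    (P : Fin N → Dir) (X : Fin N → Dir → JJ Pos T → Bool) (e : Sym2 (VV Pos T)) :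
    e ∈ stream C G R P X ↔
      (∃ (i : Fin N) (p : Dir) (j : JJ Pos T) (τ : Bool), slotOK C G R P (i : ℕ) p j ∧
        e = edg j.1.1 j.1.2 τ j.2.1 j.2.2 (xor τ (X i p j))) ∨
      ∃ v ∈ Zset C G R P, e = s(Sum.inl v, Sum.inr v) := by
  unfold stream
  rw [List.mem_append, List.mem_flatMap, ndp_mem_pendList]
  refine or_congr ?_ Iff.rfl
  constructor
  · rintro ⟨i, -, hi⟩
    obtain ⟨p, j, τ, h1, h2⟩ := (ndp_mem_phaseList C G R P _ _ _).1 hi
    exact ⟨i, p, j, τ, h1, h2⟩
  · rintro ⟨i, p, j, τ, h1, h2⟩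
    exact ⟨i, List.mem_finRange i, (ndp_mem_phaseList C G R P _ _ _).2 ⟨p, j, τ, h1, h2⟩⟩

/-- A used slot has its left end first. -/
private theorem ndp_side (C : TCert T U N)
    (G : Geo Pos Dir (Fin N → ZMod D)) (R : TRoles N D U C.cell)
    (P : Fin N → Dir) {i : ℕ} {p : Dir} {j : JJ Pos T} (h : slotOK C G R P i p j) :
    C.left j.1.2 = true ∧ C.left j.2.2 = false :=
  C.join_side _ _ _ _ h.2.1

private theorem ndp_nodup_phaseList [Fintype Pos] [Fintype Dir] [Fintype T] (C : TCert T U N)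
    (G : Geo Pos Dir (Fin N → ZMod D)) (R : TRoles N D U C.cell)
    (P : Fin N → Dir) (i : ℕ) (X : Dir → JJ Pos T → Bool) :
    (phaseList C G R P i X).Nodup := by
  classical
  unfold phaseList
  rw [List.nodup_flatMap]
  constructor
  · rintro ⟨p, j⟩ hs
    have hs' : slotOK C G R P i p j := by
      have := Finset.mem_toList.1 hs
      exact (Finset.mem_filter.1 this).2
    obtain ⟨ha, hb⟩ := ndp_side C G R P hs'
    rw [List.nodup_cons]
    refine ⟨?_, List.nodup_singleton _⟩
    rw [List.mem_singleton]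
    intro h
    have := (edg_inj C.left ha hb ha hb h).2.2.1
    exact absurd this (by simp)
  · refine List.Nodup.pairwise_of_forall_ne (Finset.nodup_toList _) ?_
    rintro ⟨p, j⟩ hs ⟨p', j'⟩ hs' hne
    have h1 : slotOK C G R P i p j := by
      have := Finset.mem_toList.1 hs
      exact (Finset.mem_filter.1 this).2
    have h2 : slotOK C G R P i p' j' := by
      have := Finset.mem_toList.1 hs'
      exact (Finset.mem_filter.1 this).2
    obtain ⟨ha, hb⟩ := ndp_side C G R P h1
    obtain ⟨ha', hb'⟩ := ndp_side C G R P h2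
    obtain ⟨-, -, -, hne1, hblk⟩ := h1
    obtain ⟨-, -, -, hne1', hblk'⟩ := h2
    change List.Disjoint _ _
    rw [List.disjoint_left]
    intro e he he'
    simp only [List.mem_cons, List.not_mem_nil, or_false] at he he'
    have key : ∃ τ ρ τ' ρ', edg j.1.1 j.1.2 τ j.2.1 j.2.2 τ' =
        edg j'.1.1 j'.1.2 ρ j'.2.1 j'.2.2 ρ' := by
      rcases he with he | he <;> rcases he' with he' | he'
      · exact ⟨_, _, _, _, he.symm.trans he'⟩
      · exact ⟨_, _, _, _, he.symm.trans he'⟩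
      · exact ⟨_, _, _, _, he.symm.trans he'⟩
      · exact ⟨_, _, _, _, he.symm.trans he'⟩
    obtain ⟨τ, ρ, τ', ρ', h⟩ := key
    obtain ⟨e1, e2, -, e3, e4, -⟩ := edg_inj C.left ha hb ha' hb' h
    have ej : j = j' := Prod.ext (Prod.ext e1 e2) (Prod.ext e3 e4)
    subst ej
    exact hne (Prod.ext (G.dir_uniq p p' _ _ hne1 hblk hblk') rfl)

theorem stream_isStream [Fintype Pos] [Fintype Dir] [Fintype T] (C : TCert T U N)
    (G : Geo Pos Dir (Fin N → ZMod D)) (R : TRoles N D U C.cell)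
    (P : Fin N → Dir) (X : Fin N → Dir → JJ Pos T → Bool) :
    IsStream (stream C G R P X) := by
  classical
  constructor
  · unfold stream
    rw [List.nodup_append']
    refine ⟨?_, ?_, ?_⟩
    · rw [List.nodup_flatMap]
      refine ⟨fun i _ => ndp_nodup_phaseList C G R P _ _, ?_⟩
      refine List.Nodup.pairwise_of_forall_ne (List.nodup_finRange N) ?_
      intro i _ i' _ hne
      change List.Disjoint _ _
      rw [List.disjoint_left]
      intro e he he'
      obtain ⟨p, j, τ, h1, h2⟩ := (ndp_mem_phaseList C G R P _ _ _).1 he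
      obtain ⟨p', j', τ', h1', h2'⟩ := (ndp_mem_phaseList C G R P _ _ _).1 he'
      obtain ⟨ha, hb⟩ := ndp_side C G R P h1
      obtain ⟨ha', hb'⟩ := ndp_side C G R P h1'
      obtain ⟨-, hj, -⟩ := h1
      obtain ⟨-, hj', -⟩ := h1'
      obtain ⟨e1, e2, -, -, e4, -⟩ := edg_inj C.left ha hb ha' hb' (h2.symm.trans h2')
      rw [← e1, ← e2, ← e4] at hj'
      exact hne (Fin.ext (C.join_uniq _ _ _ _ _ hj hj'))
    · unfold pendList
      refine List.Nodup.map ?_ (Finset.nodup_toList _)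
      intro v v' h
      have h' : s((Sum.inl v : VV Pos T), Sum.inr v) = s(Sum.inl v', Sum.inr v') := h
      rw [Sym2.eq_iff] at h'
      rcases h' with ⟨h1, -⟩ | ⟨h1, -⟩
      · exact Sum.inl.inj h1
      · exact absurd h1 (by simp)
    · rw [List.disjoint_left]
      intro e he he'
      obtain ⟨i, -, hi⟩ := List.mem_flatMap.1 he
      obtain ⟨p, j, τ, h1, h2⟩ := (ndp_mem_phaseList C G R P _ _ _).1 hi
      obtain ⟨v, -, hv⟩ := (ndp_mem_pendList C G R P _).1 he'
      have h := h2.symm.trans hv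
      unfold edg at h
      rw [Sym2.eq_iff] at h
      rcases h with ⟨-, h1⟩ | ⟨h1, -⟩
      · exact absurd h1 (by simp)
      · exact absurd h1 (by simp)
  · intro e he
    rcases (ndp_mem_stream C G R P X e).1 he with ⟨i, p, j, τ, h1, h2⟩ | ⟨v, -, hv⟩
    · obtain ⟨ha, hb⟩ := ndp_side C G R P h1
      rw [h2]
      intro h
      unfold edg at h
      rw [Sym2.mk_isDiag_iff] at h
      simp only [Sum.inl.injEq, Prod.mk.injEq] at h
      rw [h.2.1, hb] at ha
      exact absurd ha (by simp)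
    · rw [hv]
      intro h
      rw [Sym2.mk_isDiag_iff] at h
      exact absurd h (by simp)

theorem stream_isBip [Fintype Pos] [Fintype Dir] [Fintype T] (C : TCert T U N)
    (G : Geo Pos Dir (Fin N → ZMod D)) (R : TRoles N D U C.cell)
    (P : Fin N → Dir) (X : Fin N → Dir → JJ Pos T → Bool) :
    IsBip (stream C G R P X) := by
  refine ⟨fun v => Sum.elim (fun u : Vx Pos T => C.left u.2.1)
    (fun u : Vx Pos T => !(C.left u.2.1)) v, ?_⟩
  intro v w hvw
  rcases (ndp_mem_stream C G R P X _).1 hvw with ⟨i, p, j, τ, h1, h2⟩ | ⟨u, -, hu⟩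
  · obtain ⟨ha, hb⟩ := ndp_side C G R P h1
    unfold edg at h2
    rw [Sym2.eq_iff] at h2
    rcases h2 with ⟨e1, e2⟩ | ⟨e1, e2⟩
    · subst e1 e2
      simp only [Sum.elim_inl, ha, hb]
      simp
    · subst e1 e2
      simp only [Sum.elim_inl, ha, hb]
      simp
  · rw [Sym2.eq_iff] at hu
    rcases hu with ⟨e1, e2⟩ | ⟨e1, e2⟩
    · subst e1 e2
      simp
    · subst e1 e2
      simp

/-- Membership in the hard stream. -/
theorem mem_stream [Fintype Pos] [Fintype Dir] [Fintype T] (C : TCert T U N)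
    (G : Geo Pos Dir (Fin N → ZMod D)) (R : TRoles N D U C.cell)
    (P : Fin N → Dir) (X : Fin N → Dir → JJ Pos T → Bool) (e : Sym2 (VV Pos T)) :
    e ∈ stream C G R P X ↔
      (∃ (i : Fin N) (p : Dir) (j : JJ Pos T) (τ : Bool), slotOK C G R P (i : ℕ) p j ∧
        e = edg j.1.1 j.1.2 τ j.2.1 j.2.2 (xor τ (X i p j))) ∨
      ∃ v ∈ Zset C G R P, e = s(Sum.inl v, Sum.inr v) :=
  ndp_mem_stream C G R P X e

end SMT
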