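import Pool.Agent.SMG.Defs

/-!
SMT: the tree version of the one-pass streaming lower bound (MP_8d7caf_lc).
The streaming model and the geometry are those of SMG.
-/

namespace SMT

open SMG

/-! ### Certificates of the tree game -/

/-- A certificate: vertex types `T` (left and right), units `U`, phases `0, ..., N - 1`.
`cell i u` is the cell of the unit `u` in phase `i` (the part of its history which is already
decided); `join i u a b`: in phase `i` the left type `a` and the right type `b` are joined in the
cell of `u`; `opn u a`: the type `a` stays open at the unit `u`; `M` is a matching of pairs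
(type, unit). -/
structure TCert (T U : Type) (N : ℕ) where
  left : T → Bool
  cell : ℕ → U → List Bool
  cell_zero : ∀ u u', cell 0 u = cell 0 u'
  cell_mono : ∀ i u u', cell (i + 1) u = cell (i + 1) u' → cell i u = cell i u'
  join : ℕ → U → T → T → Prop
  join_cell : ∀ i u u' a b, cell i u = cell i u' → join i u a b → join i u' a b
  join_uniq : ∀ i i' u a b, join i u a b → join i' u a b → i = i'
  join_side : ∀ i u a b, join i u a b → left a = true ∧ left b = false
  opn : U → T → Prop
  indep : ∀ i u a b, join i u a b → ¬ (opn u a ∧ opn u b)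
  M : Finset ((T × U) × (T × U))
  M_spec : ∀ m ∈ M, opn m.1.2 m.1.1 ∧ opn m.2.2 m.2.1 ∧
    ∃ i < N, cell i m.1.2 = cell i m.2.2 ∧ join i m.1.2 m.1.1 m.2.1
  M_match : ∀ m ∈ M, ∀ m' ∈ M, (m.1 = m'.1 ∨ m.2 = m'.2) → m = m'

/-- The number of closed pairs (type, unit). -/
noncomputable def TCert.z {T U : Type} {N : ℕ} (C : TCert T U N) : ℕ :=
  Nat.card {s : T × U // ¬ C.opn s.2 s.1}

/-- The number of matched pairs. -/
def TCert.h {T U : Type} {N : ℕ} (C : TCert T U N) : ℕ := C.M.card

/-! ### Roles -/

/-- A rule which turns a word `δ` of `N` digits into a unit; the cell in phase `i` only depends on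
the digits with index less than `i`, and all units of this cell are equally likely. -/
structure TRoles (N D : ℕ) (U : Type) (cell : ℕ → U → List Bool) where
  unit : (Fin N → ZMod D) → U
  adapted : ∀ (i : ℕ) (δ δ' : Fin N → ZMod D), (∀ l : Fin N, (l : ℕ) < i → δ l = δ' l) →
    cell i (unit δ) = cell i (unit δ')
  equi : ∀ (i : Fin N) (δ₀ : Fin N → ZMod D) (u u' : U),
    cell (i : ℕ) u = cell (i : ℕ) (unit δ₀) → cell (i : ℕ) u' = cell (i : ℕ) (unit δ₀) →
    Nat.card {δ : Fin N → ZMod D // (∀ l : Fin N, l < i → δ l = δ₀ l) ∧ unit δ = u} =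
    Nat.card {δ : Fin N → ZMod D // (∀ l : Fin N, l < i → δ l = δ₀ l) ∧ unit δ = u'}

/-! ### The hard streams -/

section
variable {Pos Dir T U : Type} {N D : ℕ}

/-- The unit of a position. -/
def unitOf (C : TCert T U N) (G : Geo Pos Dir (Fin N → ZMod D)) (R : TRoles N D U C.cell)
    (P : Fin N → Dir) (x : Pos) : U := R.unit (delta G P x)

/-- The slot `j` in direction `p` is used in phase `i`. -/
def slotOK (C : TCert T U N) (G : Geo Pos Dir (Fin N → ZMod D)) (R : TRoles N D U C.cell)
    (P : Fin N → Dir) (i : ℕ) (p : Dir) (j : JJ Pos T) : Prop :=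
  (∀ l : Fin N, (l : ℕ) < i → p ≠ P l) ∧
    C.join i (unitOf C G R P j.1.1) j.1.2 j.2.2 ∧
    C.cell i (unitOf C G R P j.1.1) = C.cell i (unitOf C G R P j.2.1) ∧
    j.1.1 ≠ j.2.1 ∧ G.blk p j.1.1 = G.blk p j.2.1

open Classical in
/-- The edges of phase `i` with switch bits `X`. -/
noncomputable def phaseList [Fintype Pos] [Fintype Dir] [Fintype T] (C : TCert T U N)
    (G : Geo Pos Dir (Fin N → ZMod D)) (R : TRoles N D U C.cell)
    (P : Fin N → Dir) (i : ℕ) (X : Dir → JJ Pos T → Bool) : List (Sym2 (VV Pos T)) :=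
  ((Finset.univ : Finset (Dir × JJ Pos T)).filter (fun s => slotOK C G R P i s.1 s.2)).toList.flatMap
    (fun s => [edg s.2.1.1 s.2.1.2 false s.2.2.1 s.2.2.2 (X s.1 s.2),
      edg s.2.1.1 s.2.1.2 true s.2.2.1 s.2.2.2 (!(X s.1 s.2))])

open Classical in
/-- The closed vertices: those of bad positions, and those whose type is not open. -/
noncomputable def Zset [Fintype Pos] [Fintype T] (C : TCert T U N)
    (G : Geo Pos Dir (Fin N → ZMod D)) (R : TRoles N D U C.cell)
    (P : Fin N → Dir) : Finset (Vx Pos T) :=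
  Finset.univ.filter (fun v => (∃ l, ¬ G.good (P l) v.1) ∨ ¬ C.opn (unitOf C G R P v.1) v.2.1)

/-- The pendant edges. -/
noncomputable def pendList [Fintype Pos] [Fintype T] (C : TCert T U N)
    (G : Geo Pos Dir (Fin N → ZMod D)) (R : TRoles N D U C.cell)
    (P : Fin N → Dir) : List (Sym2 (VV Pos T)) :=
  (Zset C G R P).toList.map (fun v => s(Sum.inl v, Sum.inr v))

/-- The hard stream. -/
noncomputable def stream [Fintype Pos] [Fintype Dir] [Fintype T] (C : TCert T U N)
    (G : Geo Pos Dir (Fin N → ZMod D)) (R : TRoles N D U C.cell)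
    (P : Fin N → Dir) (X : Fin N → Dir → JJ Pos T → Bool) : List (Sym2 (VV Pos T)) :=
  (List.finRange N).flatMap (fun i : Fin N => phaseList C G R P (i : ℕ) (X i)) ++ pendList C G R P

/-- The possible edges of phase `i` in direction `p`. -/
def Spec (C : TCert T U N) (G : Geo Pos Dir (Fin N → ZMod D)) (R : TRoles N D U C.cell)
    (P : Fin N → Dir) (i : ℕ) (p : Dir) : Set (Sym2 (VV Pos T)) :=
  {e | ∃ (j : JJ Pos T) (τ τ' : Bool), slotOK C G R P i p j ∧
    e = edg j.1.1 j.1.2 τ j.2.1 j.2.2 τ'}

open Classical in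
/-- The switch bits which a set `O` of edges predicts in direction `p` of phase `i`. -/
noncomputable def pred (C : TCert T U N) (G : Geo Pos Dir (Fin N → ZMod D))
    (R : TRoles N D U C.cell) (P : Fin N → Dir)
    (O : Finset (Sym2 (VV Pos T))) (i : ℕ) (p : Dir) (j : JJ Pos T) : Option Bool :=
  if slotOK C G R P i p j then
    if h : ∃ β : Bool, edg j.1.1 j.1.2 false j.2.1 j.2.2 β ∈ O ∨
        edg j.1.1 j.1.2 true j.2.1 j.2.2 (!β) ∈ O then some h.choose else none
  else none

end

/-! ### Weighted trees -/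

/-- A binary tree with births `a` (left side) and `b` (right side) at the inner nodes and stops
`p` (left side open) and `q` (right side open) at the leaves. -/
inductive Tr (α : Type) : Type
  | leaf (p q : α) : Tr α
  | node (a b : α) (l r : Tr α) : Tr α

section
variable {α : Type} [CommSemiring α]

/-- Total weight of the stops with the left side open. -/
def Tr.PA : Tr α → α
  | .leaf p _ => p
  | .node _ _ l r => l.PA + r.PA

/-- Total weight of the stops with the right side open. -/
def Tr.PB : Tr α → α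
  | .leaf _ q => q
  | .node _ _ l r => l.PB + r.PB

/-- Total weight of the closed pairs. -/
def Tr.Z : Tr α → α
  | .leaf _ _ => 0
  | .node a b l r => a * (l.PB + r.PB) + b * (l.PA + r.PA) + l.Z + r.Z

/-- Weight of the stops with the left side open whose path meets an inner node with label `true`. -/
def Tr.QA : Tr α → (List Bool → Bool) → α
  | .leaf _ _, _ => 0
  | .node _ _ l r, S => if S [] then l.PA + r.PA
      else l.QA (fun v => S (false :: v)) + r.QA (fun v => S (true :: v))

/-- Weight of the stops with the right side open whose path meets an inner node with label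
`false`. -/
def Tr.QB : Tr α → (List Bool → Bool) → α
  | .leaf _ _, _ => 0
  | .node _ _ l r, S => if S [] then l.QB (fun v => S (false :: v)) + r.QB (fun v => S (true :: v))
      else l.PB + r.PB

/-- The cost of a labelling. -/
def Tr.FS : Tr α → (List Bool → Bool) → α
  | .leaf _ _, _ => 0
  | .node a b l r, S => a * (Tr.node a b l r).QA S + b * (Tr.node a b l r).QB S +
      l.FS (fun v => S (false :: v)) + r.FS (fun v => S (true :: v))

end

/-- Total weight of the stops with side `s` open. -/
def Tr.P {α : Type} [CommSemiring α] (t : Tr α) (s : Bool) : α := if s then t.PA else t.PB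

/-- Weight of the stops with side `s` open which meet a label `s`. -/
def Tr.Q {α : Type} [CommSemiring α] (t : Tr α) (s : Bool) (S : List Bool → Bool) : α :=
  if s then t.QA S else t.QB S

/-- All weights are nonnegative. -/
def Tr.Nonneg : Tr ℚ → Prop
  | .leaf p q => 0 ≤ p ∧ 0 ≤ q
  | .node a b l r => 0 ≤ a ∧ 0 ≤ b ∧ l.Nonneg ∧ r.Nonneg

/-- The types (births) of a tree. -/
def Ty : Tr ℕ → Type
  | .leaf _ _ => Empty
  | .node a b l r => (Fin a ⊕ Fin b) ⊕ (Ty l ⊕ Ty r)

/-- The units (stops) of a tree. -/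
def Un : Tr ℕ → Type
  | .leaf p q => Fin p ⊕ Fin q
  | .node _ _ l r => Un l ⊕ Un r

/-- The side of a type. -/
def tside : (t : Tr ℕ) → Ty t → Bool
  | .leaf _ _, x => x.elim
  | .node _ _ _ _, .inl (.inl _) => true
  | .node _ _ _ _, .inl (.inr _) => false
  | .node _ _ l _, .inr (.inl x) => tside l x
  | .node _ _ _ r, .inr (.inr x) => tside r x

/-- The node at which a type is born. -/
def taddr : (t : Tr ℕ) → Ty t → List Bool
  | .leaf _ _, x => x.elim
  | .node _ _ _ _, .inl _ => []
  | .node _ _ l _, .inr (.inl x) => false :: taddr l x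
  | .node _ _ _ r, .inr (.inr x) => true :: taddr r x

/-- The open side of a unit. -/
def uside : (t : Tr ℕ) → Un t → Bool
  | .leaf _ _, .inl _ => true
  | .leaf _ _, .inr _ => false
  | .node _ _ l _, .inl x => uside l x
  | .node _ _ _ r, .inr x => uside r x

/-- The leaf of a unit. -/
def uaddr : (t : Tr ℕ) → Un t → List Bool
  | .leaf _ _, _ => []
  | .node _ _ l _, .inl x => false :: uaddr l x
  | .node _ _ _ r, .inr x => true :: uaddr r x

/-- The depth of a tree. -/
def Tr.depth {α : Type} : Tr α → ℕ
  | .leaf _ _ => 0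
  | .node _ _ l r => max l.depth r.depth + 1

/-- Left atoms: a left type born on the path of a unit with the left side open. -/
def LAtom (t : Tr ℕ) : Type :=
  {s : Ty t × Un t // tside t s.1 = true ∧ uside t s.2 = true ∧ taddr t s.1 <+: uaddr t s.2}

/-- Right atoms. -/
def RAtom (t : Tr ℕ) : Type :=
  {s : Ty t × Un t // tside t s.1 = false ∧ uside t s.2 = false ∧ taddr t s.1 <+: uaddr t s.2}

/-- Two atoms may be matched if their paths meet. -/
def adj (t : Tr ℕ) (x : LAtom t) (y : RAtom t) : Prop :=
  taddr t x.1.1 <+: uaddr t y.1.2 ∧ taddr t y.1.1 <+: uaddr t x.1.2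

/-! ### The optimal tree -/

/-- The growth factor `1 + 1 / (2 m)`. -/
def bet (m : ℕ) : ℚ := 1 + 1 / (2 * m)

/-- `B j = β ^ (j - m)`. -/
def Bf (m j : ℕ) : ℚ := bet m ^ j / bet m ^ m

/-- The line of recursion depth `k` and age `j` with stop weight `μ`, birth scale `R`, side `s`. -/
def line (m : ℕ) : ℕ → ℕ → ℚ → ℚ → Bool → Tr ℚ
  | 0, _, μ, _, s => .leaf (if s then μ else 0) (if s then 0 else μ)
  | _ + 1, 0, μ, _, s => .leaf (if s then μ else 0) (if s then 0 else μ)
  | k + 1, j + 1, μ, R, s =>
      .node (if s then R / (2 * m) else 0) (if s then 0 else R / (2 * m))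
        (line m (k + 1) j μ (bet m * R) s)
        (line m k (2 * m - j) (μ / (2 * m) / Bf m (j + 1)) (R * Bf m (j + 1)) (!s))
termination_by k j => (k, j)

/-- The penalty. -/
def pen (m : ℕ) : ℕ → ℕ → ℚ
  | 0, j => (bet m ^ j - 1) / 2
  | _ + 1, 0 => 0
  | k + 1, j + 1 => bet m * pen m (k + 1) j + pen m k (2 * m - j) / (2 * m)
termination_by k j => (k, j)

/-- The total weight. -/
def nuf (m : ℕ) : ℕ → ℕ → ℚ
  | 0, j => Bf m j
  | _ + 1, 0 => Bf m 0
  | k + 1, j + 1 => bet m * nuf m (k + 1) j + nuf m k (2 * m - j) / (2 * m)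
termination_by k j => (k, j)

/-- The whole tree of recursion depth `k`: initial births on both sides, then the line of
age `2 m`. -/
def top (m k : ℕ) : Tr ℚ :=
  .node 1 (Bf m (2 * m)) (line m k (2 * m) 1 1 true) (.leaf 0 0)

/-- The value `(1 + 1 / (2 m)) ^ m / 2`, which tends to `√e / 2`. -/
def rho (m : ℕ) : ℚ := bet m ^ m / 2

end SMT
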