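import Pool.Agent.SMT.Defs

/-! INT: rational weights can be scaled to natural numbers. -/

namespace SMT

namespace INT

/-- Scaling of all weights. -/
noncomputable def sc (d : ℕ) : Tr ℚ → Tr ℕ
  | .leaf p q => .leaf ⌊(d : ℚ) * p⌋₊ ⌊(d : ℚ) * q⌋₊
  | .node a b l r => .node ⌊(d : ℚ) * a⌋₊ ⌊(d : ℚ) * b⌋₊ (sc d l) (sc d r)

/-- All scaled weights are natural numbers. -/
def gd (d : ℕ) : Tr ℚ → Prop
  | .leaf p q => ((⌊(d : ℚ) * p⌋₊ : ℕ) : ℚ) = (d : ℚ) * p ∧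
      ((⌊(d : ℚ) * q⌋₊ : ℕ) : ℚ) = (d : ℚ) * q
  | .node a b l r => ((⌊(d : ℚ) * a⌋₊ : ℕ) : ℚ) = (d : ℚ) * a ∧
      ((⌊(d : ℚ) * b⌋₊ : ℕ) : ℚ) = (d : ℚ) * b ∧ gd d l ∧ gd d r

theorem one_wt {x : ℚ} (hx : 0 ≤ x) {e : ℕ} (h : x.den ∣ e) :
    ((⌊(e : ℚ) * x⌋₊ : ℕ) : ℚ) = (e : ℚ) * x := by
  obtain ⟨k, rfl⟩ := h
  have h1 : (x.den : ℚ) * x = x.num := by
    rw [mul_comm]; exact Rat.mul_den_eq_num x
  have h2 : ((x.den * k : ℕ) : ℚ) * x = ((k * x.num.toNat : ℕ) : ℚ) := by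
    have h3 : ((x.num.toNat : ℕ) : ℚ) = (x.num : ℚ) := by
      have h4 : ((x.num.toNat : ℕ) : ℤ) = x.num := Int.toNat_of_nonneg (Rat.num_nonneg.mpr hx)
      exact_mod_cast congrArg (fun z : ℤ => (z : ℚ)) h4
    push_cast
    rw [h3, ← h1]
    ring
  rw [h2, Nat.floor_natCast]

theorem ex_gd (t : Tr ℚ) (ht : t.Nonneg) : ∃ d : ℕ, 0 < d ∧ ∀ k : ℕ, gd (d * k) t := by
  induction t with
  | leaf p q =>
    refine ⟨p.den * q.den, Nat.mul_pos p.den_pos q.den_pos, fun k => ⟨?_, ?_⟩⟩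
    · exact one_wt ht.1 ⟨q.den * k, by ring⟩
    · exact one_wt ht.2 ⟨p.den * k, by ring⟩
  | node a b l r ihl ihr =>
    obtain ⟨dl, hl0, hl⟩ := ihl ht.2.2.1
    obtain ⟨dr, hr0, hr⟩ := ihr ht.2.2.2
    refine ⟨a.den * b.den * dl * dr, by have := a.den_pos; have := b.den_pos; positivity,
      fun k => ⟨?_, ?_, ?_, ?_⟩⟩
    · exact one_wt ht.1 ⟨b.den * dl * dr * k, by ring⟩
    · exact one_wt ht.2.1 ⟨a.den * dl * dr * k, by ring⟩
    · have := hl (a.den * b.den * dr * k)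
      rwa [show dl * (a.den * b.den * dr * k) = a.den * b.den * dl * dr * k by ring] at this
    · have := hr (a.den * b.den * dl * k)
      rwa [show dr * (a.den * b.den * dl * k) = a.den * b.den * dl * dr * k by ring] at this

theorem PA_sc (d : ℕ) (t : Tr ℚ) (h : gd d t) : ((sc d t).PA : ℚ) = (d : ℚ) * t.PA := by
  induction t with
  | leaf p q => exact h.1
  | node a b l r ihl ihr =>
    simp only [sc, Tr.PA]
    push_cast
    rw [ihl h.2.2.1, ihr h.2.2.2]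
    ring

theorem PB_sc (d : ℕ) (t : Tr ℚ) (h : gd d t) : ((sc d t).PB : ℚ) = (d : ℚ) * t.PB := by
  induction t with
  | leaf p q => exact h.2
  | node a b l r ihl ihr =>
    simp only [sc, Tr.PB]
    push_cast
    rw [ihl h.2.2.1, ihr h.2.2.2]
    ring

theorem Z_sc (d : ℕ) (t : Tr ℚ) (h : gd d t) : ((sc d t).Z : ℚ) = (d : ℚ) ^ 2 * t.Z := by
  induction t with
  | leaf p q => simp [sc, Tr.Z]
  | node a b l r ihl ihr =>
    simp only [sc, Tr.Z]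
    push_cast
    rw [ihl h.2.2.1, ihr h.2.2.2, PA_sc d l h.2.2.1, PA_sc d r h.2.2.2, PB_sc d l h.2.2.1,
      PB_sc d r h.2.2.2, h.1, h.2.1]
    ring

theorem QA_sc (d : ℕ) (t : Tr ℚ) (h : gd d t) (S : List Bool → Bool) :
    ((sc d t).QA S : ℚ) = (d : ℚ) * t.QA S := by
  induction t generalizing S with
  | leaf p q => simp [sc, Tr.QA]
  | node a b l r ihl ihr =>
    simp only [sc, Tr.QA]
    split_ifs
    · push_cast
      rw [PA_sc d l h.2.2.1, PA_sc d r h.2.2.2]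
      ring
    · push_cast
      rw [ihl h.2.2.1, ihr h.2.2.2]
      ring

theorem QB_sc (d : ℕ) (t : Tr ℚ) (h : gd d t) (S : List Bool → Bool) :
    ((sc d t).QB S : ℚ) = (d : ℚ) * t.QB S := by
  induction t generalizing S with
  | leaf p q => simp [sc, Tr.QB]
  | node a b l r ihl ihr =>
    simp only [sc, Tr.QB]
    split_ifs
    · push_cast
      rw [ihl h.2.2.1, ihr h.2.2.2]
      ring
    · push_cast
      rw [PB_sc d l h.2.2.1, PB_sc d r h.2.2.2]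
      ring

theorem FS_sc (d : ℕ) (t : Tr ℚ) (h : gd d t) (S : List Bool → Bool) :
    ((sc d t).FS S : ℚ) = (d : ℚ) ^ 2 * t.FS S := by
  induction t generalizing S with
  | leaf p q => simp [sc, Tr.FS]
  | node a b l r ihl ihr =>
    have hA := QA_sc d (.node a b l r) h S
    have hB := QB_sc d (.node a b l r) h S
    simp only [sc] at hA hB
    simp only [sc, Tr.FS]
    push_cast
    rw [hA, hB, ihl h.2.2.1, ihr h.2.2.2, h.1, h.2.1]
    ring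

end INT

theorem intify (t : Tr ℚ) (ht : t.Nonneg) :
    ∃ d : ℕ, 0 < d ∧ ∃ t' : Tr ℕ, (∀ S, (t'.FS S : ℚ) = (d : ℚ) ^ 2 * t.FS S) ∧
      (t'.Z : ℚ) = (d : ℚ) ^ 2 * t.Z ∧ (t'.PA : ℚ) = d * t.PA ∧ (t'.PB : ℚ) = d * t.PB := by
  obtain ⟨d, hd, h⟩ := INT.ex_gd t ht
  have h1 : INT.gd d t := by simpa using h 1
  exact ⟨d, hd, INT.sc d t, INT.FS_sc d t h1, INT.Z_sc d t h1, INT.PA_sc d t h1, INT.PB_sc d t h1⟩

end SMT
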