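import Pool.Agent.SMT.Defs

/-! LIM: `rho m` tends to `√e / 2`. -/

namespace SMT

theorem rho_lim (α : ℝ) (hα : 2 / (2 + Real.sqrt (Real.exp 1)) < α) :
    ∃ m : ℕ, 0 < m ∧ 1 / (1 + (rho m : ℝ)) < α := by
  have h1 : Filter.Tendsto (fun m : ℕ => (1 + (1 / 2 : ℝ) / m) ^ m) Filter.atTop
      (nhds (Real.exp (1 / 2))) := Real.tendsto_one_add_div_pow_exp (1 / 2)
  have h2 : Filter.Tendsto (fun m : ℕ => 1 / (1 + (1 + (1 / 2 : ℝ) / m) ^ m / 2)) Filter.atTop
      (nhds (1 / (1 + Real.exp (1 / 2) / 2))) := by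
    have hpos : (1 : ℝ) + Real.exp (1 / 2) / 2 ≠ 0 := by
      have := Real.exp_pos (1 / 2)
      positivity
    exact tendsto_const_nhds.div (tendsto_const_nhds.add (h1.div_const 2)) hpos
  have h3 : (1 : ℝ) / (1 + Real.exp (1 / 2) / 2) < α := by
    have e : (1 : ℝ) / (1 + Real.exp (1 / 2) / 2) = 2 / (2 + Real.sqrt (Real.exp 1)) := by
      rw [← Real.exp_half]
      have := Real.exp_pos (1 / 2)
      field_simp
    rw [e]; exact hα
  have h4 := (h2.eventually (gt_mem_nhds h3)).and (Filter.eventually_gt_atTop 0)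
  obtain ⟨m, hm, hm0⟩ := h4.exists
  refine ⟨m, hm0, ?_⟩
  have e : (rho m : ℝ) = (1 + (1 / 2 : ℝ) / m) ^ m / 2 := by
    unfold rho bet
    push_cast
    congr 3
    have : (m : ℝ) ≠ 0 := by exact_mod_cast hm0.ne'
    field_simp
  rw [e]; exact hm

end SMT
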