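import Pool.Agent.SMT.Defs

/-! PEN: bounds for the penalty and for the total weight. -/

namespace SMT

theorem pen_one_le_bet (m : ℕ) : 1 ≤ bet m := by
  unfold bet
  have : (0 : ℚ) ≤ 1 / (2 * m) := by positivity
  linarith

theorem pen_aux (m : ℕ) (hm : 0 < m) (C : ℚ)
    (h0 : ∀ j ≤ 2 * m, (bet m ^ j - 1) / 2 ≤ C * j) (k j : ℕ) (hj : j ≤ 2 * m) :
    pen m k j ≤ C * j := by
  have hb := pen_one_le_bet m
  have hm' : (0 : ℚ) < 2 * m := by positivity
  induction k generalizing j with
  | zero =>
    rw [pen]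
    exact h0 j hj
  | succ k ih =>
    induction j with
    | zero =>
      rw [pen]
      simp
    | succ j ihj =>
      rw [pen]
      have h1 := ihj (by omega)
      have h2 := ih (2 * m - j) (by omega)
      have hcast : ((2 * m - j : ℕ) : ℚ) = 2 * m - j := by
        rw [Nat.cast_sub (show j ≤ 2 * m by omega)]
        push_cast
        ring
      rw [hcast] at h2
      have h3 : pen m k (2 * m - j) / (2 * m) ≤ C * (2 * m - j) / (2 * m) :=
        div_le_div_of_nonneg_right h2 hm'.le
      have h4 : bet m * pen m (k + 1) j ≤ bet m * (C * j) :=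
        mul_le_mul_of_nonneg_left h1 (by linarith)
      have h5 : bet m * (C * j) + C * (2 * m - j) / (2 * m) = C * ((j + 1 : ℕ) : ℚ) := by
        unfold bet
        push_cast
        field_simp
        ring
      linarith

theorem pen_le (m : ℕ) (hm : 0 < m) (k j : ℕ) (hj : j ≤ 2 * m) :
    pen m k j ≤ (bet m ^ (2 * m) - 1) / 2 * j := by
  refine pen_aux m hm _ ?_ k j hj
  intro j hj
  have hb := pen_one_le_bet m
  rcases Nat.eq_zero_or_pos j with rfl | hj0
  · simp
  · have h1 : bet m ^ j ≤ bet m ^ (2 * m) := pow_le_pow_right₀ hb hj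
    have h2 : (1 : ℚ) ≤ j := by exact_mod_cast hj0
    have h3 : 1 ≤ bet m ^ (2 * m) := one_le_pow₀ hb
    nlinarith

theorem nuf_ge (m : ℕ) (hm : 0 < m) (k j : ℕ) (hj : j ≤ 2 * m) :
    Bf m 0 * (1 + k * j / m) ≤ nuf m k j := by
  have hb := pen_one_le_bet m
  have hb0 : 0 < bet m := by linarith
  have hm0 : (0 : ℚ) < m := by exact_mod_cast hm
  have hm' : (0 : ℚ) < 2 * m := by positivity
  have hB0 : 0 < Bf m 0 := by
    unfold Bf
    positivity
  induction k generalizing j with
  | zero =>
    rw [nuf]
    unfold Bf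
    simp only [pow_zero, Nat.cast_zero, zero_mul, zero_div, add_zero, mul_one]
    exact div_le_div_of_nonneg_right (one_le_pow₀ hb) (by positivity)
  | succ k ih =>
    induction j with
    | zero =>
      rw [nuf]
      simp
    | succ j ihj =>
      rw [nuf]
      have h1 := ihj (by omega)
      have h2 := ih (2 * m - j) (by omega)
      have hcast : ((2 * m - j : ℕ) : ℚ) = 2 * m - j := by
        rw [Nat.cast_sub (show j ≤ 2 * m by omega)]
        push_cast
        ring
      rw [hcast] at h2
      have h3 := div_le_div_of_nonneg_right h2 hm'.le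
      have h4 := mul_le_mul_of_nonneg_left h1 hb0.le
      have h5 : Bf m 0 * (1 + ((k + 1 : ℕ) : ℚ) * ((j + 1 : ℕ) : ℚ) / m) +
          Bf m 0 * (j / (2 * m * m)) =
          bet m * (Bf m 0 * (1 + ((k + 1 : ℕ) : ℚ) * j / m)) +
            Bf m 0 * (1 + k * (2 * m - j) / m) / (2 * m) := by
        generalize Bf m 0 = B
        unfold bet
        push_cast
        field_simp
        ring
      have h6 : 0 ≤ Bf m 0 * ((j : ℚ) / (2 * m * m)) := by positivity
      linarith

end SMT
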