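import Pool.Agent.SMT.REC
import Pool.Agent.SMT.PEN

/-! TOP: the inequality for the whole tree. -/

namespace SMT

theorem top_PQ (t : Tr ℚ) (h : t.Nonneg) : 0 ≤ t.PA ∧ 0 ≤ t.PB ∧
    (∀ S, t.QA S ≤ t.PA) ∧ (∀ S, t.QB S ≤ t.PB) := by
  induction t with
  | leaf p q => exact ⟨h.1, h.2, fun _ => h.1, fun _ => h.2⟩
  | node a b l r ihl ihr =>
    obtain ⟨l1, l2, l3, l4⟩ := ihl h.2.2.1
    obtain ⟨r1, r2, r3, r4⟩ := ihr h.2.2.2
    refine ⟨add_nonneg l1 r1, add_nonneg l2 r2, fun S => ?_, fun S => ?_⟩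
    · simp only [Tr.QA, Tr.PA]
      split
      · exact le_refl _
      · exact add_le_add (l3 _) (r3 _)
    · simp only [Tr.QB, Tr.PB]
      split
      · exact add_le_add (l4 _) (r4 _)
      · exact le_refl _

theorem top_Bf_pos (m j : ℕ) : 0 < Bf m j := by
  have hb := pen_one_le_bet m
  have hb0 : 0 < bet m := by linarith
  unfold Bf
  positivity

theorem top_nonneg (m : ℕ) (hm : 0 < m) (k : ℕ) : (top m k).Nonneg :=
  ⟨zero_le_one, (top_Bf_pos m (2 * m)).le,
    line_nonneg m hm k (2 * m) 1 1 zero_le_one zero_le_one true, le_refl _, le_refl _⟩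

theorem top_Z (m : ℕ) (hm : 0 < m) (k : ℕ) : (top m k).Z = nuf m k (2 * m) := by
  have h := line_total m hm k (2 * m) (le_refl _) 1 1 true
  simp only [Tr.P, Bool.not_true, if_true, one_mul, mul_one, Bool.false_eq_true, if_false] at h
  unfold top
  simp only [Tr.Z, Tr.PA, Tr.PB]
  linarith

theorem top_FS (m : ℕ) (hm : 0 < m) (k : ℕ) (S : List Bool → Bool) :
    rho m * (top m k).Z - (1 / 2 + m * (bet m ^ (2 * m) - 1)) ≤ (top m k).FS S := by
  obtain ⟨Y, hY0, hY1, h1, h2⟩ := line_ineq m hm k (2 * m) (le_refl _) 1 1 zero_lt_one zero_le_one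
    true (fun v => S (false :: v))
  have hpen := pen_le m hm k (2 * m) (le_refl _)
  have hB := top_Bf_pos m (2 * m)
  obtain ⟨p1, p2, p3, p4⟩ := top_PQ _
    (line_nonneg m hm k (2 * m) 1 1 zero_le_one zero_le_one true)
  have p3' := p3 (fun v => S (false :: v))
  have p4' := p4 (fun v => S (false :: v))
  simp only [Tr.P, Tr.Q, Bool.not_true, if_true, one_mul, mul_one, Bool.false_eq_true,
    if_false] at h1 h2
  unfold top
  simp only [Tr.Z, Tr.FS, Tr.QA, Tr.QB, Tr.PA, Tr.PB]
  push_cast at hpen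
  generalize (line m k (2 * m) 1 1 true).PA = xA at *
  generalize (line m k (2 * m) 1 1 true).PB = xB at *
  generalize (line m k (2 * m) 1 1 true).QA (fun v => S (false :: v)) = yA at *
  generalize (line m k (2 * m) 1 1 true).QB (fun v => S (false :: v)) = yB at *
  generalize (line m k (2 * m) 1 1 true).FS (fun v => S (false :: v)) = f at *
  generalize (line m k (2 * m) 1 1 true).Z = z at *
  have e1 : (bet m ^ (2 * m) - 1) / 2 * (2 * m) = m * (bet m ^ (2 * m) - 1) := by ring
  rw [e1] at hpen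
  split
  · nlinarith
  · have : Bf m (2 * m) * yB ≤ Bf m (2 * m) * xB := mul_le_mul_of_nonneg_left p4' hB.le
    nlinarith

theorem top_line_P (m : ℕ) (hm : 0 < m) (k : ℕ) : ∀ (j : ℕ) (μ R : ℚ) (s : Bool), 0 ≤ μ → 0 ≤ R →
    μ ≤ (line m k j μ R s).P s := by
  have hb := pen_one_le_bet m
  have hleaf : ∀ (μ : ℚ) (s : Bool),
      μ ≤ (Tr.leaf (if s then μ else 0) (if s then 0 else μ) : Tr ℚ).P s := by
    intro μ s
    cases s <;> simp [Tr.P, Tr.PA, Tr.PB]
  cases k with
  | zero =>
    intro j μ R s _ _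
    rw [line]
    exact hleaf μ s
  | succ k =>
    intro j
    induction j with
    | zero =>
      intro μ R s _ _
      rw [line]
      exact hleaf μ s
    | succ j ih =>
      intro μ R s hμ hR
      rw [line]
      have h1 := ih μ (bet m * R) s hμ (mul_nonneg (by linarith) hR)
      have h2 := top_PQ _ (line_nonneg m hm k (2 * m - j) (μ / (2 * m) / Bf m (j + 1))
        (R * Bf m (j + 1)) (by have := top_Bf_pos m (j + 1); positivity)
        (by have := top_Bf_pos m (j + 1); positivity) (!s))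
      cases s
      · simp only [Tr.P, Tr.PB, Bool.false_eq_true, if_false] at h1 ⊢
        linarith [h2.2.1]
      · simp only [Tr.P, Tr.PA, if_true] at h1 ⊢
        linarith [h2.1]

theorem top_P (m : ℕ) (hm : 0 < m) (k : ℕ) : 0 < (top m k).PA := by
  have h := top_line_P m hm k (2 * m) 1 1 true zero_le_one zero_le_one
  simp only [Tr.P, if_true] at h
  unfold top
  simp only [Tr.PA]
  linarith

end SMT
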