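import Pool.Agent.SMT.TCE
import Pool.Agent.SMT.INT
import Pool.Agent.SMT.TOP
import Pool.Agent.SMT.LIM

/-! EXC: certificates with ratio close to `2 / (2 + √e)`. -/

namespace SMT

theorem exc_bet_pos (m : ℕ) : 0 < bet m := by
  unfold bet
  positivity

theorem exc_rho_pos (m : ℕ) : 0 < rho m := by
  unfold rho
  have := exc_bet_pos m
  positivity

theorem exc_Bf_pos (m j : ℕ) : 0 < Bf m j := by
  unfold Bf
  have := exc_bet_pos m
  positivity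

/-- For every bound some tree has a larger total `Z`. -/
theorem exc_large (m : ℕ) (hm : 0 < m) (B : ℝ) : ∃ k : ℕ, B < ((top m k).Z : ℝ) := by
  have hB0 : (0 : ℝ) < (Bf m 0 : ℝ) := by exact_mod_cast exc_Bf_pos m 0
  obtain ⟨k, hk⟩ := exists_nat_gt (B / (Bf m 0 : ℝ))
  refine ⟨k, ?_⟩
  rw [top_Z m hm k]
  have h1 := nuf_ge m hm k (2 * m) le_rfl
  have h2 : ((Bf m 0 * (1 + (k : ℚ) * ((2 * m : ℕ) : ℚ) / (m : ℚ)) : ℚ) : ℝ) ≤
      ((nuf m k (2 * m) : ℚ) : ℝ) := by exact_mod_cast h1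
  have hm' : (0 : ℝ) < (m : ℝ) := by exact_mod_cast hm
  have h3 : ((Bf m 0 * (1 + (k : ℚ) * ((2 * m : ℕ) : ℚ) / (m : ℚ)) : ℚ) : ℝ) =
      (Bf m 0 : ℝ) * (1 + 2 * k) := by
    push_cast
    field_simp
  rw [h3] at h2
  rw [div_lt_iff₀ hB0] at hk
  have hk0 : (0 : ℝ) ≤ (k : ℝ) := Nat.cast_nonneg k
  nlinarith

theorem exists_cert (α : ℝ) (hα : 2 / (2 + Real.sqrt (Real.exp 1)) < α) :
    ∃ (T U : Type) (_ : Fintype T) (_ : Fintype U) (_ : Nonempty U) (N : ℕ) (C : TCert T U N),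
      0 < C.h ∧ (C.z : ℝ) < α * (C.z + C.h) := by
  obtain ⟨m, hm, hm1⟩ := rho_lim α hα
  set ρ : ℝ := (rho m : ℝ) with hρ
  have hρ0 : 0 < ρ := by
    have := exc_rho_pos m
    rw [hρ]
    exact_mod_cast this
  have hα0 : 0 < α := lt_trans (by positivity) hm1
  have hgap : 0 < α * (1 + ρ) - 1 := by
    rw [div_lt_iff₀ (by linarith)] at hm1
    linarith
  set K : ℚ := 1 / 2 + m * (bet m ^ (2 * m) - 1) with hK
  obtain ⟨k, hk⟩ := exc_large m hm (max ((K : ℝ) / ρ) (α * (K : ℝ) / (α * (1 + ρ) - 1)))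
  obtain ⟨d, hd, t', hFS, hZ, hPA, hPB⟩ := intify (top m k) (top_nonneg m hm k)
  have hdR : (0 : ℝ) < (d : ℝ) := by exact_mod_cast hd
  have hdQ : (0 : ℚ) < (d : ℚ) := by exact_mod_cast hd
  set Z : ℝ := ((top m k).Z : ℝ) with hZdef
  have hk1 : (K : ℝ) < ρ * Z := by
    have := (le_max_left _ _).trans_lt hk
    rw [div_lt_iff₀ hρ0] at this
    linarith
  have hk2 : α * (K : ℝ) < Z * (α * (1 + ρ) - 1) := by
    have := (le_max_right _ _).trans_lt hk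
    rw [div_lt_iff₀ hgap] at this
    exact this
  -- the bound
  set c : ℕ := ⌈(d : ℚ) ^ 2 * (rho m * (top m k).Z - K)⌉₊ with hc
  have hcS : ∀ S, c ≤ t'.FS S := by
    intro S
    rw [hc, Nat.ceil_le, hFS S]
    exact mul_le_mul_of_nonneg_left (top_FS m hm k S) (by positivity)
  have hU : 0 < t'.PA + t'.PB := by
    have h1 : (0 : ℚ) < (t'.PA : ℚ) := by
      rw [hPA]
      exact mul_pos hdQ (top_P m hm k)
    have h2 : 0 < t'.PA := by exact_mod_cast h1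
    omega
  obtain ⟨T, U, i1, i2, i3, N, C, hz, hh⟩ := tree_cert t' c hcS hU
  have hcge : (d : ℝ) ^ 2 * (ρ * Z - (K : ℝ)) ≤ (c : ℝ) := by
    have h1 : (d : ℚ) ^ 2 * (rho m * (top m k).Z - K) ≤ (c : ℚ) := Nat.le_ceil _
    have h2 : (((d : ℚ) ^ 2 * (rho m * (top m k).Z - K) : ℚ) : ℝ) ≤ ((c : ℚ) : ℝ) := by
      exact_mod_cast h1
    push_cast at h2
    rw [hρ, hZdef]
    exact h2
  have hZR : (t'.Z : ℝ) = (d : ℝ) ^ 2 * Z := by
    have h2 : (((t'.Z : ℕ) : ℚ) : ℝ) = (((d : ℚ) ^ 2 * (top m k).Z : ℚ) : ℝ) := by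
      exact_mod_cast hZ
    push_cast at h2
    rw [hZdef]
    exact h2
  have hcpos : 0 < c := by
    have h1 : (0 : ℝ) < (c : ℝ) := lt_of_lt_of_le (mul_pos (by positivity) (by linarith)) hcge
    exact_mod_cast h1
  refine ⟨T, U, i1, i2, i3, N, C, by rw [hh]; exact hcpos, ?_⟩
  rw [hz, hh, hZR]
  have h1 : (d : ℝ) ^ 2 * Z < α * ((d : ℝ) ^ 2 * Z + (d : ℝ) ^ 2 * (ρ * Z - (K : ℝ))) := by
    have h2 : Z < α * (Z + (ρ * Z - (K : ℝ))) := by nlinarith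
    have h3 := mul_lt_mul_of_pos_left h2 (by positivity : (0 : ℝ) < (d : ℝ) ^ 2)
    calc (d : ℝ) ^ 2 * Z < (d : ℝ) ^ 2 * (α * (Z + (ρ * Z - (K : ℝ)))) := h3
      _ = _ := by ring
  have h4 := mul_le_mul_of_nonneg_left hcge hα0.le
  calc (d : ℝ) ^ 2 * Z < α * ((d : ℝ) ^ 2 * Z + (d : ℝ) ^ 2 * (ρ * Z - (K : ℝ))) := h1
    _ = α * ((d : ℝ) ^ 2 * Z) + α * ((d : ℝ) ^ 2 * (ρ * Z - (K : ℝ))) := by ring
    _ ≤ α * ((d : ℝ) ^ 2 * Z) + α * (c : ℝ) := by linarith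
    _ = _ := by ring

end SMT
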