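import Pool.Agent.SMT.Defs

/-! ROL: existence of a rule for the roles.

Take `D = (card U)!` and number the units.  Start with the class of all units; in phase `i` the
digit `δ i` modulo the size of the current class (a subset of one cell of phase `i`) picks one of
its units, and the next class is the set of the units of the class with the same cell in phase
`i + 1`.  The result is the unit picked last. -/

namespace SMT

open Finset

open Classical in
private theorem rol_key (N : ℕ) (U κ : Type) [Fintype U] (cl : ℕ → U → κ)
    (hinj : ∀ u v, cl N u = cl N v → u = v)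
    (hm : ∀ i u v, cl (i + 1) u = cl (i + 1) v → cl i u = cl i v)
    (D : ℕ) [NeZero D]
    (hD : ∀ i u₀, (univ.filter (fun u : U => cl i u = cl i u₀)).card ∣ D) :
    ∀ k i, i + k = N → ∀ u₀ : U,
      ∃ g : (Fin N → ZMod D) → U, (∀ δ, cl i (g δ) = cl i u₀) ∧
        (∀ j, i ≤ j → j ≤ N → ∀ δ δ', (∀ l : Fin N, i ≤ (l : ℕ) → (l : ℕ) < j → δ l = δ' l) →
          cl j (g δ) = cl j (g δ')) ∧
        (∀ j, i ≤ j → j ≤ N → ∀ δ₀ u, cl j u = cl j (g δ₀) →
          (univ.filter (fun δ : Fin N → ZMod D =>
            (∀ l : Fin N, (l : ℕ) < j → δ l = δ₀ l) ∧ g δ = u)).card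
            * (univ.filter (fun v : U => cl j v = cl j u)).card = D ^ (N - j)) := by
  intro k
  induction k with
  | zero =>
    intro i hi u₀
    have hiN : i = N := by omega
    subst hiN
    refine ⟨fun _ => u₀, fun _ => rfl, fun _ _ _ _ _ _ => rfl, ?_⟩
    intro j hj hj' δ₀ u hu
    have hji : j = i := by omega
    subst hji
    have hu' : u = u₀ := hinj _ _ hu
    subst hu'
    have e1 : (univ.filter (fun δ : Fin j → ZMod D =>
        (∀ l : Fin j, (l : ℕ) < j → δ l = δ₀ l) ∧ u = u)) = {δ₀} := by
      ext δ
      simp only [mem_filter, mem_univ, true_and, and_true, mem_singleton]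
      constructor
      · intro h
        funext l
        exact h l l.2
      · rintro rfl l _
        rfl
    have e2 : (univ.filter (fun v : U => cl j v = cl j u)) = {u} := by
      ext v
      simp only [mem_filter, mem_univ, true_and, mem_singleton]
      exact ⟨fun h => hinj _ _ h, fun h => by rw [h]⟩
    rw [e1, e2]
    simp
  | succ k ih =>
    intro i hi u₀
    have hiN : i < N := by omega
    obtain ⟨q, hq⟩ := hD i u₀
    have hcpos : 0 < (univ.filter (fun u : U => cl i u = cl i u₀)).card :=
      Finset.card_pos.2 ⟨u₀, by simp⟩
    have hcardV : Fintype.card (ZMod D) = Fintype.card ({u : U // cl i u = cl i u₀} × Fin q) := by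
      rw [ZMod.card, Fintype.card_prod, Fintype.card_subtype, Fintype.card_fin]
      exact hq
    obtain ⟨e⟩ : Nonempty (ZMod D ≃ {u : U // cl i u = cl i u₀} × Fin q) :=
      ⟨Fintype.equivOfCardEq hcardV⟩
    let f : ZMod D → U := fun a => ((e a).1 : U)
    have hf : ∀ a, cl i (f a) = cl i u₀ := fun a => (e a).1.2
    have hfib : ∀ u, cl i u = cl i u₀ → (univ.filter (fun a => f a = u)).card = q := by
      intro u hu
      have : (univ.filter (fun a => f a = u)).card = (univ : Finset (Fin q)).card := by
        symm
        apply Finset.card_bij (fun t _ => e.symm (⟨u, hu⟩, t))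
        · intro t _
          simp [f]
        · intro t _ t' _ ht
          have := e.symm.injective ht
          simpa using this
        · intro a ha
          simp only [mem_filter, mem_univ, true_and, f] at ha
          refine ⟨(e a).2, mem_univ _, ?_⟩
          apply e.injective
          rw [Equiv.apply_symm_apply]
          ext
          · exact ha.symm
          · rfl
      rw [this, Finset.card_univ, Fintype.card_fin]
    choose G hG1 hG2 hG3 using fun u : U => ih (i + 1) (by omega) u
    let ii : Fin N := ⟨i, hiN⟩
    let g : (Fin N → ZMod D) → U := fun δ => G (f (δ ii)) δ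
    have hga : ∀ δ, cl i (g δ) = cl i u₀ := by
      intro δ
      exact (hm i _ _ (hG1 (f (δ ii)) δ)).trans (hf _)
    refine ⟨g, hga, ?_, ?_⟩
    · intro j hj hjN δ δ' hδδ
      rcases Nat.eq_or_lt_of_le hj with hji | hij
      · subst hji
        rw [hga, hga]
      · have h1 : δ ii = δ' ii := hδδ ii le_rfl hij
        have h2 := hG2 (f (δ ii)) j hij hjN δ δ' (fun l hl hl' => hδδ l (by omega) hl')
        show cl j (G (f (δ ii)) δ) = cl j (G (f (δ' ii)) δ')
        rw [← h1]
        exact h2
    · intro j hj hjN δ₀ u hu
      rcases Nat.lt_or_ge i j with hij | hij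
      · have hset : (univ.filter (fun δ : Fin N → ZMod D =>
            (∀ l : Fin N, (l : ℕ) < j → δ l = δ₀ l) ∧ g δ = u))
            = (univ.filter (fun δ : Fin N → ZMod D =>
            (∀ l : Fin N, (l : ℕ) < j → δ l = δ₀ l) ∧ G (f (δ₀ ii)) δ = u)) := by
          apply Finset.filter_congr
          intro δ _
          constructor
          · rintro ⟨h1, h2⟩
            refine ⟨h1, ?_⟩
            rw [← h1 ii hij]
            exact h2
          · rintro ⟨h1, h2⟩
            refine ⟨h1, ?_⟩
            rw [← h1 ii hij] at h2
            exact h2
        rw [hset]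
        exact hG3 (f (δ₀ ii)) j hij hjN δ₀ u hu
      · have hji : j = i := by omega
        subst hji
        have hu0 : cl j u = cl j u₀ := hu.trans (hga δ₀)
        -- sum over the digit
        have hsum : (univ.filter (fun δ : Fin N → ZMod D =>
            (∀ l : Fin N, (l : ℕ) < j → δ l = δ₀ l) ∧ g δ = u)).card
            = ∑ a : ZMod D, ((univ.filter (fun δ : Fin N → ZMod D =>
            (∀ l : Fin N, (l : ℕ) < j → δ l = δ₀ l) ∧ g δ = u)).filter (fun δ => δ ii = a)).card := by
          apply Finset.card_eq_sum_card_fiberwise
          intro δ _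
          exact mem_coe.2 (mem_univ _)
        have hup : ∀ (a : ZMod D) (δ : Fin N → ZMod D),
            ((∀ l : Fin N, (l : ℕ) < j → δ l = δ₀ l) ∧ δ ii = a) ↔
            (∀ l : Fin N, (l : ℕ) < j + 1 → δ l = Function.update δ₀ ii a l) := by
          intro a δ
          constructor
          · rintro ⟨h1, h2⟩ l hl
            by_cases hl' : l = ii
            · subst hl'
              simpa using h2
            · rw [Function.update_of_ne hl']
              apply h1
              have : (l : ℕ) ≠ j := fun h3 => hl' (Fin.ext h3)
              omega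
          · intro h1
            refine ⟨fun l hl => ?_, ?_⟩
            · have h2 := h1 l (by omega)
              rwa [Function.update_of_ne] at h2
              intro h3
              rw [h3] at hl
              exact absurd hl (lt_irrefl _)
            · have h2 := h1 ii (Nat.lt_succ_self _)
              simpa using h2
        set c' : ℕ := (univ.filter (fun v : U => cl (j + 1) v = cl (j + 1) u)).card with hc'
        have hc1 : 0 < c' := Finset.card_pos.2 ⟨u, by simp⟩
        have hcnt : ∀ a : ZMod D, ((univ.filter (fun δ : Fin N → ZMod D =>
            (∀ l : Fin N, (l : ℕ) < j → δ l = δ₀ l) ∧ g δ = u)).filter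
            (fun δ => δ ii = a)).card * c'
            = if cl (j + 1) (f a) = cl (j + 1) u then D ^ (N - (j + 1)) else 0 := by
          intro a
          split_ifs with hfa
          · rw [← hG3 (f a) (j + 1) le_rfl hiN (Function.update δ₀ ii a) u
              (hfa.symm.trans (hG1 (f a) _).symm)]
            congr 2
            ext δ
            simp only [mem_filter, mem_univ, true_and]
            rw [← hup a δ]
            constructor
            · rintro ⟨⟨h1, h2⟩, h3⟩
              refine ⟨⟨h1, h3⟩, ?_⟩
              rw [← h3]
              exact h2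
            · rintro ⟨⟨h1, h3⟩, h2⟩
              refine ⟨⟨h1, ?_⟩, h3⟩
              rw [← h3] at h2
              exact h2
          · have : ((univ.filter (fun δ : Fin N → ZMod D =>
                (∀ l : Fin N, (l : ℕ) < j → δ l = δ₀ l) ∧ g δ = u)).filter
                (fun δ => δ ii = a)) = ∅ := by
              rw [Finset.filter_eq_empty_iff]
              intro δ hδ h3
              simp only [mem_filter, mem_univ, true_and] at hδ
              apply hfa
              have h4 := hG1 (f (δ ii)) δ
              rw [show G (f (δ ii)) δ = u from hδ.2, h3] at h4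
              exact h4.symm
            rw [this, Finset.card_empty, zero_mul]
        have hnum : (univ.filter (fun a => cl (j + 1) (f a) = cl (j + 1) u)).card = c' * q := by
          have h5 : (univ.filter (fun a => cl (j + 1) (f a) = cl (j + 1) u)).card
              = ∑ v ∈ univ.filter (fun v : U => cl (j + 1) v = cl (j + 1) u),
                ((univ.filter (fun a => cl (j + 1) (f a) = cl (j + 1) u)).filter
                  (fun a => f a = v)).card := by
            apply Finset.card_eq_sum_card_fiberwise
            intro a ha
            simp only [mem_coe, mem_filter, mem_univ, true_and] at ha ⊢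
            exact ha
          rw [h5]
          have h6 : ∀ v ∈ univ.filter (fun v : U => cl (j + 1) v = cl (j + 1) u),
              ((univ.filter (fun a => cl (j + 1) (f a) = cl (j + 1) u)).filter
                  (fun a => f a = v)).card = q := by
            intro v hv
            simp only [mem_filter, mem_univ, true_and] at hv
            rw [← hfib v ((hm j _ _ hv).trans hu0)]
            congr 1
            ext a
            simp only [mem_filter, mem_univ, true_and]
            constructor
            · exact fun h7 => h7.2
            · intro h7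
              exact ⟨by rw [h7]; exact hv, h7⟩
          rw [Finset.sum_congr rfl h6, Finset.sum_const, smul_eq_mul]
        have hq2 : (univ.filter (fun δ : Fin N → ZMod D =>
            (∀ l : Fin N, (l : ℕ) < j → δ l = δ₀ l) ∧ g δ = u)).card = q * D ^ (N - (j + 1)) := by
          apply Nat.eq_of_mul_eq_mul_right hc1
          rw [hsum, Finset.sum_mul, Finset.sum_congr rfl (fun a _ => hcnt a),
            ← Finset.sum_filter, Finset.sum_const, hnum, smul_eq_mul]
          ring
        have hcl : (univ.filter (fun v : U => cl j v = cl j u)).card =
            (univ.filter (fun u : U => cl j u = cl j u₀)).card := by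
          congr 1
          ext v
          simp only [mem_filter, mem_univ, true_and]
          rw [hu0]
        rw [hq2, hcl]
        have h7 : N - j = (N - (j + 1)) + 1 := by omega
        rw [h7, pow_succ]
        calc q * D ^ (N - (j + 1)) * (univ.filter (fun u : U => cl j u = cl j u₀)).card
            = D ^ (N - (j + 1)) * ((univ.filter (fun u : U => cl j u = cl j u₀)).card * q) := by ring
          _ = D ^ (N - (j + 1)) * D := by rw [← hq]

theorem exists_roles (N : ℕ) (U : Type) [Fintype U] [Nonempty U] (cell : ℕ → U → List Bool)
    (h0 : ∀ u u', cell 0 u = cell 0 u')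
    (hm : ∀ i u u', cell (i + 1) u = cell (i + 1) u' → cell i u = cell i u') :
    ∃ D : ℕ, 0 < D ∧ Nonempty (TRoles N D U cell) := by
  classical
  have hDpos : 0 < (Fintype.card U).factorial := Nat.factorial_pos _
  refine ⟨(Fintype.card U).factorial, hDpos, ?_⟩
  have : NeZero (Fintype.card U).factorial := ⟨hDpos.ne'⟩
  let cl : ℕ → U → List Bool × Option U := fun j u => (cell j u, if j < N then none else some u)
  have hcl : ∀ j < N, ∀ u v, cl j u = cl j v ↔ cell j u = cell j v := by
    intro j hj u v
    simp only [cl, if_pos hj, Prod.mk.injEq, and_true]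
  have hinj : ∀ u v, cl N u = cl N v → u = v := by
    intro u v h
    simp only [cl, lt_irrefl, if_false, Prod.mk.injEq, Option.some.injEq] at h
    exact h.2
  have hcm : ∀ i u v, cl (i + 1) u = cl (i + 1) v → cl i u = cl i v := by
    intro i u v h
    simp only [cl, Prod.mk.injEq] at h ⊢
    refine ⟨hm i _ _ h.1, ?_⟩
    by_cases h1 : i < N
    · rw [if_pos h1, if_pos h1]
    · rw [if_neg (by omega), if_neg (by omega)] at h
      rw [if_neg h1, if_neg h1]
      exact h.2
  obtain ⟨g, h1, h2, h3⟩ := rol_key N U _ cl hinj hcm (Fintype.card U).factorial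
    (fun i u₀ => Nat.dvd_factorial (Finset.card_pos.2 ⟨u₀, by simp⟩) (Finset.card_le_univ _))
    N 0 (by omega) (Classical.arbitrary U)
  refine ⟨⟨g, ?_, ?_⟩⟩
  · intro i δ δ' hδ
    rcases Nat.lt_or_ge i N with hi | hi
    · exact (hcl i hi _ _).1 (h2 i (Nat.zero_le _) hi.le δ δ' (fun l _ hl => hδ l hl))
    · have : δ = δ' := by
        funext l
        exact hδ l (by have := l.2; omega)
      rw [this]
  · intro i δ₀ u u' hu hu'
    have e : ∀ v : U, Nat.card {δ : Fin N → ZMod (Fintype.card U).factorial //
        (∀ l : Fin N, l < i → δ l = δ₀ l) ∧ g δ = v}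
        = (univ.filter (fun δ : Fin N → ZMod (Fintype.card U).factorial =>
            (∀ l : Fin N, (l : ℕ) < (i : ℕ) → δ l = δ₀ l) ∧ g δ = v)).card := by
      intro v
      rw [Nat.card_eq_fintype_card, Fintype.card_subtype]
      rfl
    rw [e, e]
    have hu2 := (hcl i i.2 _ _).2 hu
    have hu2' := (hcl i i.2 _ _).2 hu'
    have k1 := h3 i (Nat.zero_le _) i.2.le δ₀ u hu2
    have k2 := h3 i (Nat.zero_le _) i.2.le δ₀ u' hu2'
    rw [hu2] at k1
    rw [hu2'] at k2
    have hc : 0 < (univ.filter (fun v : U => cl i v = cl i (g δ₀))).card :=
      Finset.card_pos.2 ⟨g δ₀, by simp⟩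
    apply Nat.eq_of_mul_eq_mul_right hc
    convert k1.trans k2.symm

end SMT
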