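import Pool.Agent.SMT.CORE
import Pool.Agent.SMG.GEO
import Pool.Agent.SMG.TRF
import Pool.Agent.SMG.MMX
import Pool.Agent.SMT.ROL

/-! FIN: every certificate gives a lower bound for randomised one-pass algorithms. -/

namespace SMT

open SMG Filter MeasureTheory

theorem main {T U : Type} [Fintype T] [Fintype U] [Nonempty U] {N : ℕ} (C : TCert T U N)
    (hh : 0 < C.h) (α : ℝ) (hα : (C.z : ℝ) < α * (C.z + C.h)) (δ : ℝ) (hδ : 0 < δ)
    (c : ℕ) (K : ℝ) :
    ∀ᶠ n : ℕ in atTop, ∀ b : ℕ, (b : ℝ) ≤ K * n * Real.log n ^ c →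
      ∀ (Ω : Type) [MeasurableSpace Ω] (μ : Measure Ω) [IsProbabilityMeasure μ]
        (A : Ω → SAlg (Fin n) b),
        (∀ σ, IsStream σ → MeasurableSet {ω | Success α (A ω) σ}) →
        ∃ σ : List (Sym2 (Fin n)), IsStream σ ∧ IsBip σ ∧
          μ {ω | Success α (A ω) σ} ≤ ENNReal.ofReal δ := by
  classical
  obtain ⟨D, hD, ⟨R⟩⟩ := exists_roles N U C.cell C.cell_zero C.cell_mono
  have hN : 0 < N := by
    obtain ⟨m, hm⟩ := Finset.card_pos.1 hh
    obtain ⟨-, -, i, hi, -⟩ := C.M_spec m hm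
    omega
  have hhR : (0 : ℝ) < C.h := by exact_mod_cast hh
  have hzR : (0 : ℝ) ≤ C.z := Nat.cast_nonneg _
  set α' : ℝ := min α 1 with hα'def
  have hα' : (C.z : ℝ) < α' * (C.z + C.h) := by
    rcases min_choice α 1 with h | h
    · rw [hα'def, h]; exact hα
    · rw [hα'def, h]; linarith
  have hα'0 : 0 ≤ α' := by
    by_contra hneg
    push Not at hneg
    have : α' * (C.z + C.h) < 0 := mul_neg_of_neg_of_pos hneg (by linarith)
    linarith
  obtain ⟨κ, hκ, c₀, hc₀, hcore⟩ := core hN hD C R α' δ hα' (min_le_right _ _) hδ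
  set W : ℕ := 4 * Fintype.card T + 1 with hW
  have hWpos : 0 < W := by omega
  have hWR : (0 : ℝ) < W := by exact_mod_cast hWpos
  set K' : ℝ := (2 * W * |K| + 1) / c₀ with hK'
  have hev1 : ∀ᶠ n : ℕ in atTop, (1 : ℝ) ≤ Real.log n := by
    have := (Real.tendsto_log_atTop.comp tendsto_natCast_atTop_atTop).eventually_ge_atTop 1
    simpa using this
  have hev2 : ∀ᶠ n : ℕ in atTop, (2 * W / c₀ : ℝ) ≤ n :=
    tendsto_natCast_atTop_atTop.eventually_ge_atTop _
  filter_upwards [exists_geo N D W c hD hWpos κ K' hκ, hev1, hev2] with n hgeo hlog hn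
  intro b hb Ω _ μ _ A hmeas
  obtain ⟨Pos, Dir, _, _, G, hgood, hn1, hn2, hdir⟩ := hgeo
  have hlogc : (1 : ℝ) ≤ Real.log n ^ c := one_le_pow₀ hlog
  have hn2R : (n : ℝ) ≤ 2 * W * (Nat.card Pos : ℝ) := by exact_mod_cast hn2
  have hK'0 : 0 ≤ K' := by positivity
  have hposR : (1 / c₀ : ℝ) ≤ (Nat.card Pos : ℝ) := by
    have h1 : (2 * W / c₀ : ℝ) ≤ 2 * W * (Nat.card Pos : ℝ) := hn.trans hn2R
    have h2 : (2 * W : ℝ) * (1 / c₀) ≤ 2 * W * (Nat.card Pos : ℝ) := by
      calc (2 * W : ℝ) * (1 / c₀) = 2 * W / c₀ := by ring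
        _ ≤ _ := h1
    exact le_of_mul_le_mul_left h2 (by positivity)
  have hdirR : (1 / c₀ : ℝ) ≤ (Nat.card Dir : ℝ) := by
    calc (1 / c₀ : ℝ) ≤ K' := by
          rw [hK']
          gcongr
          have : 0 ≤ 2 * (W : ℝ) * |K| := by positivity
          linarith
      _ ≤ K' * Real.log n ^ c := le_mul_of_one_le_right hK'0 hlogc
      _ ≤ _ := hdir
  have hbR : (b : ℝ) ≤ c₀ * Nat.card Pos * Nat.card Dir := by
    have hposn : (0 : ℝ) ≤ Nat.card Pos := Nat.cast_nonneg _
    calc (b : ℝ) ≤ K * n * Real.log n ^ c := hb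
      _ ≤ |K| * n * Real.log n ^ c := by
          gcongr
          exact le_abs_self K
      _ ≤ |K| * (2 * W * (Nat.card Pos : ℝ)) * Real.log n ^ c := by
          gcongr
      _ = (2 * W * |K|) * Real.log n ^ c * Nat.card Pos := by ring
      _ ≤ (c₀ * K') * Real.log n ^ c * Nat.card Pos := by
          have : c₀ * K' = 2 * W * |K| + 1 := by
            rw [hK']
            field_simp
          rw [this]
          gcongr
          linarith
      _ = c₀ * Nat.card Pos * (K' * Real.log n ^ c) := by ring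
      _ ≤ c₀ * Nat.card Pos * Nat.card Dir := by
          gcongr
  have hcore' := hcore Pos Dir G b hgood hbR hposR hdirR
  -- the vertex set embeds
  have hcard : Fintype.card (VV Pos T) ≤ Fintype.card (Fin n) := by
    rw [Fintype.card_fin]
    refine le_trans ?_ hn1
    rw [Nat.card_eq_fintype_card, hW]
    simp only [VV, Vx, Fintype.card_sum, Fintype.card_prod, Fintype.card_bool]
    nlinarith [Nat.zero_le (Fintype.card Pos)]
  obtain ⟨f⟩ : Nonempty (VV Pos T ↪ Fin n) := Function.Embedding.nonempty_of_card_le hcard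
  -- the parameter space is nonempty
  have hDirne : Nonempty Dir := by
    have : (0 : ℝ) < (Nat.card Dir : ℝ) := lt_of_lt_of_le (by positivity) hdirR
    have h1 : 0 < Nat.card Dir := by exact_mod_cast this
    exact (Nat.card_pos_iff.1 h1).1
  have _inst : Fintype (Par Pos Dir T N) := Fintype.ofFinite _
  have hΘ : Nonempty (Par Pos Dir T N) := ⟨(fun _ => hDirne.some, fun _ _ _ => true)⟩
  have hstr : ∀ θ : Par Pos Dir T N, IsStream ((stream C G R θ.1 θ.2).map (Sym2.map f)) :=
    fun θ => isStream_map f _ (stream_isStream C G R θ.1 θ.2)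
  obtain ⟨θ, hθ⟩ := minimax μ
    (fun θ : Par Pos Dir T N =>
      {ω | Success α (A ω) ((stream C G R θ.1 θ.2).map (Sym2.map f))})
    (fun θ => hmeas _ (hstr θ)) δ hδ.le (by
      intro ω
      obtain ⟨A', hA'⟩ := transfer f (A ω)
      refine le_trans ?_ (hcore' A')
      have hle : Nat.card {θ : Par Pos Dir T N // ω ∈
            {ω | Success α (A ω) ((stream C G R θ.1 θ.2).map (Sym2.map f))}} ≤
          Nat.card {θ : Par Pos Dir T N // Success α' A' (stream C G R θ.1 θ.2)} := by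
        refine Nat.card_le_card_of_injective
          (fun s => ⟨s.1, hA' α' _ hα'0 (success_mono (min_le_left _ _) _ _ s.2)⟩) ?_
        intro s t hst
        exact Subtype.ext (congrArg (fun q => q.1) hst)
      exact_mod_cast hle)
  exact ⟨_, hstr θ, isBip_map f _ (stream_isBip C G R θ.1 θ.2), hθ⟩


end SMT
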