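import Pool.Agent.SMT.TYF

/-! FSC: the cost of a labelling counts the atoms which meet a label of their side. -/

namespace SMT

/-- Extending a path to the left of a cons cell. -/
theorem ex_cons (S : List Bool → Bool) (x c : Bool) (w : List Bool) (v₀ : List Bool) :
    (∃ v, x :: v₀ <+: v ∧ v <+: x :: w ∧ v ≠ x :: w ∧ S v = c) ↔
      ∃ v, v₀ <+: v ∧ v <+: w ∧ v ≠ w ∧ S (x :: v) = c := by
  constructor
  · rintro ⟨v, h1, h2, h3, h4⟩
    rcases v with _ | ⟨y, v⟩
    · simp at h1
    · rw [cons_pre] at h1 h2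
      obtain ⟨h1, h1'⟩ := h1
      subst h1
      exact ⟨v, h1', h2.2, fun h => h3 (by rw [h]), h4⟩
  · rintro ⟨v, h1, h2, h3, h4⟩
    refine ⟨x :: v, ?_, ?_, ?_, h4⟩
    · rw [cons_pre]
      exact ⟨rfl, h1⟩
    · rw [cons_pre]
      exact ⟨rfl, h2⟩
    · intro h
      exact h3 (List.cons.inj h).2

theorem ex_nil (S : List Bool → Bool) (x c : Bool) (w : List Bool) :
    (∃ v, v <+: x :: w ∧ v ≠ x :: w ∧ S v = c) ↔
      S [] = c ∨ ∃ v, v <+: w ∧ v ≠ w ∧ S (x :: v) = c := by
  constructor
  · rintro ⟨v, h2, h3, h4⟩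
    rcases v with _ | ⟨y, v⟩
    · exact Or.inl h4
    · rw [cons_pre] at h2
      obtain ⟨h2, h2'⟩ := h2
      subst h2
      exact Or.inr ⟨v, h2', fun h => h3 (by rw [h]), h4⟩
  · rintro (h | ⟨v, h2, h3, h4⟩)
    · exact ⟨[], List.nil_prefix, by simp, h⟩
    · refine ⟨x :: v, ?_, ?_, h4⟩
      · rw [cons_pre]
        exact ⟨rfl, h2⟩
      · intro h
        exact h3 (List.cons.inj h).2

theorem ex_ne (S : List Bool → Bool) (x y c : Bool) (hxy : x ≠ y) (w : List Bool)
    (v₀ : List Bool) :
    ¬ ∃ v, x :: v₀ <+: v ∧ v <+: y :: w ∧ v ≠ y :: w ∧ S v = c := by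
  rintro ⟨v, h1, h2, -, -⟩
  have := h1.trans h2
  rw [cons_pre] at this
  exact hxy this.1

theorem card_hitA (t : Tr ℕ) (S : List Bool → Bool) :
    Nat.card {u : Un t // uside t u = true ∧
      ∃ v, v <+: uaddr t u ∧ v ≠ uaddr t u ∧ S v = true} = t.QA S := by
  induction t generalizing S with
  | leaf p q =>
    refine card_sub_empty _ (fun u => ?_)
    rintro ⟨-, v, h1, h2, -⟩
    have h1' : v <+: [] := h1
    exact h2 (List.prefix_nil.1 h1')
  | node a b l r hl hr =>
    refine (card_sumsub (α := Un l) (β := Un r) (fun u => uside (.node a b l r) u = true ∧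
      ∃ v, v <+: uaddr (.node a b l r) u ∧ v ≠ uaddr (.node a b l r) u ∧ S v = true)).trans ?_
    by_cases hS : S [] = true
    · have e : (Tr.node a b l r).QA S = l.PA + r.PA := by simp [Tr.QA, hS]
      rw [e]
      refine congrArg₂ (· + ·) ?_ ?_
      · refine (card_sub_congr (α := Un l) _ (fun u => uside l u = true) (fun u => ?_)).trans
          (card_unA l)
        exact ⟨fun h => h.1, fun h => ⟨h, (ex_nil S false true (uaddr l u)).2 (Or.inl hS)⟩⟩
      · refine (card_sub_congr (α := Un r) _ (fun u => uside r u = true) (fun u => ?_)).trans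
          (card_unA r)
        exact ⟨fun h => h.1, fun h => ⟨h, (ex_nil S true true (uaddr r u)).2 (Or.inl hS)⟩⟩
    · have e : (Tr.node a b l r).QA S =
          l.QA (fun v => S (false :: v)) + r.QA (fun v => S (true :: v)) := by simp [Tr.QA, hS]
      rw [e]
      refine congrArg₂ (· + ·) ?_ ?_
      · refine (card_sub_congr (α := Un l) _ _ (fun u => ?_)).trans
          (hl (fun v => S (false :: v)))
        exact ⟨fun h => ⟨h.1, ((ex_nil S false true (uaddr l u)).1 h.2).resolve_left hS⟩,
          fun h => ⟨h.1, (ex_nil S false true (uaddr l u)).2 (Or.inr h.2)⟩⟩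
      · refine (card_sub_congr (α := Un r) _ _ (fun u => ?_)).trans
          (hr (fun v => S (true :: v)))
        exact ⟨fun h => ⟨h.1, ((ex_nil S true true (uaddr r u)).1 h.2).resolve_left hS⟩,
          fun h => ⟨h.1, (ex_nil S true true (uaddr r u)).2 (Or.inr h.2)⟩⟩

theorem card_hitB (t : Tr ℕ) (S : List Bool → Bool) :
    Nat.card {u : Un t // uside t u = false ∧
      ∃ v, v <+: uaddr t u ∧ v ≠ uaddr t u ∧ S v = false} = t.QB S := by
  induction t generalizing S with
  | leaf p q =>
    refine card_sub_empty _ (fun u => ?_)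
    rintro ⟨-, v, h1, h2, -⟩
    have h1' : v <+: [] := h1
    exact h2 (List.prefix_nil.1 h1')
  | node a b l r hl hr =>
    refine (card_sumsub (α := Un l) (β := Un r) (fun u => uside (.node a b l r) u = false ∧
      ∃ v, v <+: uaddr (.node a b l r) u ∧ v ≠ uaddr (.node a b l r) u ∧ S v = false)).trans ?_
    by_cases hS : S [] = false
    · have e : (Tr.node a b l r).QB S = l.PB + r.PB := by simp [Tr.QB, hS]
      rw [e]
      refine congrArg₂ (· + ·) ?_ ?_
      · refine (card_sub_congr (α := Un l) _ (fun u => uside l u = false) (fun u => ?_)).trans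
          (card_unB l)
        exact ⟨fun h => h.1, fun h => ⟨h, (ex_nil S false false (uaddr l u)).2 (Or.inl hS)⟩⟩
      · refine (card_sub_congr (α := Un r) _ (fun u => uside r u = false) (fun u => ?_)).trans
          (card_unB r)
        exact ⟨fun h => h.1, fun h => ⟨h, (ex_nil S true false (uaddr r u)).2 (Or.inl hS)⟩⟩
    · have hS' : S [] = true := by simpa using hS
      have e : (Tr.node a b l r).QB S =
          l.QB (fun v => S (false :: v)) + r.QB (fun v => S (true :: v)) := by simp [Tr.QB, hS']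
      rw [e]
      refine congrArg₂ (· + ·) ?_ ?_
      · refine (card_sub_congr (α := Un l) _ _ (fun u => ?_)).trans
          (hl (fun v => S (false :: v)))
        exact ⟨fun h => ⟨h.1, ((ex_nil S false false (uaddr l u)).1 h.2).resolve_left hS⟩,
          fun h => ⟨h.1, (ex_nil S false false (uaddr l u)).2 (Or.inr h.2)⟩⟩
      · refine (card_sub_congr (α := Un r) _ _ (fun u => ?_)).trans
          (hr (fun v => S (true :: v)))
        exact ⟨fun h => ⟨h.1, ((ex_nil S true false (uaddr r u)).1 h.2).resolve_left hS⟩,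
          fun h => ⟨h.1, (ex_nil S true false (uaddr r u)).2 (Or.inr h.2)⟩⟩

/-- The condition of a paid left (`c = true`) or right (`c = false`) atom. -/
def Hit (c : Bool) (t : Tr ℕ) (S : List Bool → Bool) (s : Ty t × Un t) : Prop :=
  (tside t s.1 = c ∧ uside t s.2 = c ∧ taddr t s.1 <+: uaddr t s.2) ∧
    ∃ v, taddr t s.1 <+: v ∧ v <+: uaddr t s.2 ∧ v ≠ uaddr t s.2 ∧ S v = c

theorem card_hit_node (c : Bool) (a b : ℕ) (l r : Tr ℕ) (S : List Bool → Bool) :
    Nat.card {s // Hit c (.node a b l r) S s} =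
      (if c then a else b) * (if c then (Tr.node a b l r).QA S else (Tr.node a b l r).QB S) +
        Nat.card {s // Hit c l (fun v => S (false :: v)) s} +
        Nat.card {s // Hit c r (fun v => S (true :: v)) s} := by
  have key : ∀ n : ℕ, Nat.card {s : Fin n × Un (.node a b l r) //
      (uside (.node a b l r) s.2 = c ∧ ([] : List Bool) <+: uaddr (.node a b l r) s.2) ∧
      ∃ v, ([] : List Bool) <+: v ∧ v <+: uaddr (.node a b l r) s.2 ∧
        v ≠ uaddr (.node a b l r) s.2 ∧ S v = c} =
      n * (if c then (Tr.node a b l r).QA S else (Tr.node a b l r).QB S) := by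
    intro n
    refine (card_finprod n (fun u : Un (.node a b l r) =>
      (uside (.node a b l r) u = c ∧ ([] : List Bool) <+: uaddr (.node a b l r) u) ∧
      ∃ v, ([] : List Bool) <+: v ∧ v <+: uaddr (.node a b l r) u ∧
        v ≠ uaddr (.node a b l r) u ∧ S v = c)).trans ?_
    refine congrArg (n * ·) ?_
    cases c
    · refine (card_sub_congr _ _ (fun u => ?_)).trans (card_hitB (.node a b l r) S)
      simp
    · refine (card_sub_congr _ _ (fun u => ?_)).trans (card_hitA (.node a b l r) S)
      simp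
  refine (card_node a b l r _).trans ?_
  have h1 : Nat.card {s : Fin a × Un (.node a b l r) //
      Hit c (.node a b l r) S (.inl (.inl s.1), s.2)} =
      if c then a * (Tr.node a b l r).QA S else 0 := by
    cases c
    · refine card_sub_empty _ (fun s h => ?_)
      exact Bool.noConfusion (h.1.1 : true = false)
    · refine (card_sub_congr _ _ (fun s => ?_)).trans (key a)
      exact ⟨fun h => ⟨h.1.2, h.2⟩, fun h => ⟨⟨rfl, h.1⟩, h.2⟩⟩
  have h2 : Nat.card {s : Fin b × Un (.node a b l r) //
      Hit c (.node a b l r) S (.inl (.inr s.1), s.2)} =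
      if c then 0 else b * (Tr.node a b l r).QB S := by
    cases c
    · refine (card_sub_congr _ _ (fun s => ?_)).trans (key b)
      exact ⟨fun h => ⟨h.1.2, h.2⟩, fun h => ⟨⟨rfl, h.1⟩, h.2⟩⟩
    · refine card_sub_empty _ (fun s h => ?_)
      exact Bool.noConfusion (h.1.1 : false = true)
  have h3 : Nat.card {s : Ty l × Un l // Hit c (.node a b l r) S (.inr (.inl s.1), .inl s.2)} =
      Nat.card {s // Hit c l (fun v => S (false :: v)) s} := by
    refine card_sub_congr _ _ (fun s => ?_)
    refine and_congr (and_congr Iff.rfl (and_congr Iff.rfl ?_)) ?_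
    · exact (cons_pre _ _ _ _).trans (by simp)
    · exact ex_cons S false c (uaddr l s.2) (taddr l s.1)
  have h4 : Nat.card {s : Ty l × Un r // Hit c (.node a b l r) S (.inr (.inl s.1), .inr s.2)} =
      0 := by
    refine card_sub_empty _ (fun s h => ?_)
    exact ex_ne S false true c (by simp) (uaddr r s.2) (taddr l s.1) h.2
  have h5 : Nat.card {s : Ty r × Un l // Hit c (.node a b l r) S (.inr (.inr s.1), .inl s.2)} =
      0 := by
    refine card_sub_empty _ (fun s h => ?_)
    exact ex_ne S true false c (by simp) (uaddr l s.2) (taddr r s.1) h.2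
  have h6 : Nat.card {s : Ty r × Un r // Hit c (.node a b l r) S (.inr (.inr s.1), .inr s.2)} =
      Nat.card {s // Hit c r (fun v => S (true :: v)) s} := by
    refine card_sub_congr _ _ (fun s => ?_)
    refine and_congr (and_congr Iff.rfl (and_congr Iff.rfl ?_)) ?_
    · exact (cons_pre _ _ _ _).trans (by simp)
    · exact ex_cons S true c (uaddr r s.2) (taddr r s.1)
  refine (congrArg₂ (· + ·) (congrArg₂ (· + ·) h1 h2)
    (congrArg₂ (· + ·) (congrArg₂ (· + ·) h3 h4) (congrArg₂ (· + ·) h5 h6))).trans ?_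
  cases c
  · simp only [if_false, Bool.false_eq_true]
    ring
  · simp only [if_true]
    ring

theorem FS_hit (t : Tr ℕ) (S : List Bool → Bool) :
    t.FS S = Nat.card {s // Hit true t S s} + Nat.card {s // Hit false t S s} := by
  induction t generalizing S with
  | leaf p q =>
    rw [card_sub_empty (Hit true (.leaf p q) S) (fun s => s.1.elim),
      card_sub_empty (Hit false (.leaf p q) S) (fun s => s.1.elim)]
    rfl
  | node a b l r hl hr =>
    rw [card_hit_node true, card_hit_node false]
    have e : (Tr.node a b l r).FS S = a * (Tr.node a b l r).QA S + b * (Tr.node a b l r).QB S +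
      l.FS (fun v => S (false :: v)) + r.FS (fun v => S (true :: v)) := rfl
    rw [e, hl, hr]
    simp only [if_true, if_false, Bool.false_eq_true]
    ring

theorem FS_card (t : Tr ℕ) (S : List Bool → Bool) :
    t.FS S =
      Nat.card {x : LAtom t // ∃ v, taddr t x.1.1 <+: v ∧ v <+: uaddr t x.1.2 ∧
        v ≠ uaddr t x.1.2 ∧ S v = true} +
      Nat.card {x : RAtom t // ∃ v, taddr t x.1.1 <+: v ∧ v <+: uaddr t x.1.2 ∧
        v ≠ uaddr t x.1.2 ∧ S v = false} := by
  rw [FS_hit]
  refine congrArg₂ (· + ·) ?_ ?_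
  · exact (Nat.card_congr (Equiv.subtypeSubtypeEquivSubtypeInter
      (fun s : Ty t × Un t => tside t s.1 = true ∧ uside t s.2 = true ∧
        taddr t s.1 <+: uaddr t s.2)
      (fun s => ∃ v, taddr t s.1 <+: v ∧ v <+: uaddr t s.2 ∧
        v ≠ uaddr t s.2 ∧ S v = true))).symm
  · exact (Nat.card_congr (Equiv.subtypeSubtypeEquivSubtypeInter
      (fun s : Ty t × Un t => tside t s.1 = false ∧ uside t s.2 = false ∧
        taddr t s.1 <+: uaddr t s.2)
      (fun s => ∃ v, taddr t s.1 <+: v ∧ v <+: uaddr t s.2 ∧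
        v ≠ uaddr t s.2 ∧ S v = false))).symm

end SMT
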