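import Mathlib

/-! KON: the theorem of König for finite bipartite graphs (from Hall's theorem with dummy
vertices). -/

namespace SMT

theorem konig {α β : Type} [Finite α] [Finite β] (r : α → β → Prop) (c : ℕ)
    (h : ∀ (X : Set α) (Y : Set β), (∀ a b, r a b → a ∈ X ∨ b ∈ Y) →
      c ≤ Nat.card X + Nat.card Y) :
    ∃ M : Finset (α × β), M.card = c ∧ (∀ m ∈ M, r m.1 m.2) ∧
      ∀ m ∈ M, ∀ m' ∈ M, (m.1 = m'.1 ∨ m.2 = m'.2) → m = m' := by
  classical
  haveI := Fintype.ofFinite α
  haveI := Fintype.ofFinite β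
  have hcn : c ≤ Fintype.card α := by
    have := h Set.univ ∅ (fun a b _ => Or.inl (Set.mem_univ _))
    simpa using this
  obtain ⟨d, hd⟩ : ∃ d, d = Fintype.card α - c := ⟨_, rfl⟩
  have hall : ∀ s : Finset α, s.card ≤ (s.biUnion (fun a =>
      (Finset.univ.filter (fun b => r a b)).disjSum (Finset.univ : Finset (Fin d)))).card := by
    intro s
    rcases s.eq_empty_or_nonempty with rfl | hs
    · simp
    have hcov := h ((↑s : Set α)ᶜ) {b | ∃ a ∈ s, r a b} (by
      intro a b hab
      by_cases ha : a ∈ s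
      · exact Or.inr ⟨a, ha, hab⟩
      · exact Or.inl (by simpa using ha))
    have e1 : Nat.card ↥((↑s : Set α)ᶜ) = Fintype.card α - s.card := by
      rw [Nat.card_eq_fintype_card, Fintype.card_compl_set]
      simp
    have e2 : Nat.card ↥{b | ∃ a ∈ s, r a b} =
        (Finset.univ.filter (fun b => ∃ a ∈ s, r a b)).card := by
      rw [Nat.card_eq_fintype_card]
      exact Fintype.card_subtype _
    have e3 : (Finset.univ.filter (fun b => ∃ a ∈ s, r a b)).disjSum
        (Finset.univ : Finset (Fin d)) ⊆ s.biUnion (fun a =>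
          (Finset.univ.filter (fun b => r a b)).disjSum (Finset.univ : Finset (Fin d))) := by
      intro x hx
      rw [Finset.mem_biUnion]
      rcases x with b | i
      · rw [Finset.inl_mem_disjSum, Finset.mem_filter] at hx
        obtain ⟨_, a, ha, hab⟩ := hx
        exact ⟨a, ha, by rw [Finset.inl_mem_disjSum, Finset.mem_filter]; exact ⟨Finset.mem_univ _, hab⟩⟩
      · obtain ⟨a, ha⟩ := hs
        exact ⟨a, ha, by rw [Finset.inr_mem_disjSum]; exact Finset.mem_univ _⟩
    have e4 := Finset.card_le_card e3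
    rw [Finset.card_disjSum, Finset.card_univ, Fintype.card_fin] at e4
    have e5 : s.card ≤ Fintype.card α := Finset.card_le_univ s
    rw [e1, e2] at hcov
    omega
  obtain ⟨f, hf, hf2⟩ := (Finset.all_card_le_biUnion_card_iff_exists_injective _).1 hall
  have hbad : (Finset.univ.filter (fun a => ¬ ∃ b, f a = Sum.inl b)).card ≤ d := by
    have h1 : (Finset.univ.filter (fun a => ¬ ∃ b, f a = Sum.inl b)).image f ⊆
        (Finset.univ : Finset (Fin d)).map ⟨Sum.inr, Sum.inr_injective⟩ := by
      intro x hx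
      obtain ⟨a, ha, rfl⟩ := Finset.mem_image.1 hx
      have ha' := (Finset.mem_filter.1 ha).2
      rcases hfa : f a with b | i
      · exact absurd ⟨b, hfa⟩ ha'
      · exact Finset.mem_map.2 ⟨i, Finset.mem_univ _, rfl⟩
    have h2 := Finset.card_le_card h1
    rw [Finset.card_image_of_injective _ hf, Finset.card_map, Finset.card_univ,
      Fintype.card_fin] at h2
    exact h2
  have hgood : c ≤ (Finset.univ.filter (fun a => ∃ b, f a = Sum.inl b)).card := by
    have h1 := Finset.card_filter_add_card_filter_not (s := (Finset.univ : Finset α))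
      (fun a => ∃ b, f a = Sum.inl b)
    rw [Finset.card_univ] at h1
    omega
  obtain ⟨G, hG, hGc⟩ := Finset.exists_subset_card_eq hgood
  refine ⟨Finset.univ.filter (fun m : α × β => m.1 ∈ G ∧ f m.1 = Sum.inl m.2), ?_, ?_, ?_⟩
  · rw [← hGc]
    refine Finset.card_bij (fun m _ => m.1) ?_ ?_ ?_
    · intro m hm
      exact (Finset.mem_filter.1 hm).2.1
    · intro m hm m' hm' hmm
      have h1 := (Finset.mem_filter.1 hm).2.2
      have h2 := (Finset.mem_filter.1 hm').2.2
      have hmm' : m.1 = m'.1 := hmm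
      rw [hmm', h2] at h1
      exact Prod.ext hmm' (Sum.inl_injective h1).symm
    · intro a ha
      obtain ⟨b, hb⟩ := (Finset.mem_filter.1 (hG ha)).2
      exact ⟨(a, b), Finset.mem_filter.2 ⟨Finset.mem_univ _, ha, hb⟩, rfl⟩
  · intro m hm
    have h1 := (Finset.mem_filter.1 hm).2.2
    have h2 := hf2 m.1
    rw [h1, Finset.inl_mem_disjSum, Finset.mem_filter] at h2
    exact h2.2
  · intro m hm m' hm' hmm
    have h1 := (Finset.mem_filter.1 hm).2.2
    have h2 := (Finset.mem_filter.1 hm').2.2
    rcases hmm with h3 | h3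
    · rw [h3, h2] at h1
      exact Prod.ext h3 (Sum.inl_injective h1).symm
    · rw [h3, ← h2] at h1
      exact Prod.ext (hf h1) h3

end SMT
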