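import Pool.Agent.SMT.FSC

/-! LAB: a vertex cover of the graph of atoms gives a labelling which costs at most as much:
label `v` by `true` if all left atoms through `v` are in `X`. -/

namespace SMT

open Classical in
theorem labelling (t : Tr ℕ) (X : Set (LAtom t)) (Y : Set (RAtom t))
    (h : ∀ x y, adj t x y → x ∈ X ∨ y ∈ Y) :
    ∃ S : List Bool → Bool, t.FS S ≤ Nat.card X + Nat.card Y := by
  have f1 := finite_Ty t
  have f2 := finite_Un t
  have f3 : Finite (LAtom t) := by
    unfold LAtom
    infer_instance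
  have f4 : Finite (RAtom t) := by
    unfold RAtom
    infer_instance
  refine ⟨fun v => decide (∀ x : LAtom t, taddr t x.1.1 <+: v → v <+: uaddr t x.1.2 →
    v ≠ uaddr t x.1.2 → x ∈ X), ?_⟩
  rw [FS_card]
  refine add_le_add ?_ ?_
  · refine Nat.card_mono (Set.toFinite X) ?_
    rintro x ⟨v, h1, h2, h3, h4⟩
    exact of_decide_eq_true h4 x h1 h2 h3
  · refine Nat.card_mono (Set.toFinite Y) ?_
    rintro y ⟨v, h1, h2, h3, h4⟩
    have h5 := of_decide_eq_false h4
    push Not at h5
    obtain ⟨x, g1, g2, g3, g4⟩ := h5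
    exact (h x y ⟨g1.trans h2, h1.trans g2⟩).resolve_left g4

end SMT
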