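import Pool.Agent.SMT.RES

/-!
# One-pass streaming algorithms for maximum matching: the ratio `2 / (2 + √e) = 0.5481...`

Let `α > 2 / (2 + √e)`.  We show that no randomised algorithm which reads the edges of a graph on
`n` vertices once, in an order chosen by an adversary, and has `O(n polylog n)` bits of memory, can
output a matching with at least `α ν(G)` edges with a probability bounded from below: for every
`δ > 0`, every constant `K` and every exponent `c`, and for all large `n`, each such algorithm with
at most `K n (log n) ^ c` bits has a success probability of at most `δ` on some stream, and the graph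
of this stream is even bipartite.  The greedy algorithm has the ratio `1 / 2`.

The algorithms are as strong as possible: their steps may depend on `n` and on the number of edges
read so far, computation is free, and a randomised algorithm is an arbitrary random choice of a
deterministic one (so random bits are free as well).
-/

namespace Pool.Agent.Results.MP_8d7caf_lc.MatchingBelowRootE

open Filter MeasureTheory

/-- A deterministic one-pass algorithm with `b` bits of memory for graphs with the vertex set
`{0, ..., n - 1}`.  The memory is an element of `Fin (2 ^ b)`.  `step t m e` is the memory after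
reading the edge `e` if `m` was the memory before and `t` edges had been read before;
`out t m` is the set of edges which is produced at the end if `t` edges have been read and the
memory is `m`. -/
structure Alg (n b : ℕ) where
  init : Fin (2 ^ b)
  step : ℕ → Fin (2 ^ b) → Sym2 (Fin n) → Fin (2 ^ b)
  out : ℕ → Fin (2 ^ b) → Finset (Sym2 (Fin n))

/-- The memory after reading the list of edges, starting with memory `m` at time `t`. -/
def Alg.run {n b : ℕ} (A : Alg n b) : ℕ → Fin (2 ^ b) → List (Sym2 (Fin n)) → Fin (2 ^ b)
  | _, m, [] => m
  | t, m, e :: l => A.run (t + 1) (A.step t m e) l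

/-- The set of edges which the algorithm outputs after reading the whole stream `σ` once. -/
def Alg.output {n b : ℕ} (A : Alg n b) (σ : List (Sym2 (Fin n))) : Finset (Sym2 (Fin n)) :=
  A.out σ.length (A.run 0 A.init σ)

/-- An edge stream of a simple graph: a list of pairwise different edges without loops. -/
def IsStream {n : ℕ} (σ : List (Sym2 (Fin n))) : Prop := σ.Nodup ∧ ∀ e ∈ σ, ¬ e.IsDiag

/-- The graph of the stream is bipartite. -/
def IsBip {n : ℕ} (σ : List (Sym2 (Fin n))) : Prop :=
  ∃ side : Fin n → Bool, ∀ v w, s(v, w) ∈ σ → side v ≠ side w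

/-- A matching: two edges of `M` with a common vertex are equal. -/
def IsMatch {n : ℕ} (M : Finset (Sym2 (Fin n))) : Prop :=
  ∀ e ∈ M, ∀ f ∈ M, ∀ v, v ∈ e → v ∈ f → e = f

/-- The maximum size of a matching of the graph whose edges are the elements of the stream. -/
noncomputable def nu {n : ℕ} (σ : List (Sym2 (Fin n))) : ℕ :=
  sSup {k | ∃ M : Finset (Sym2 (Fin n)), (∀ e ∈ M, e ∈ σ) ∧ IsMatch M ∧ M.card = k}

/-- The algorithm succeeds on `σ`: its output consists of edges of the stream, is a matching, and
has at least `α ν` edges. -/
def Success {n b : ℕ} (α : ℝ) (A : Alg n b) (σ : List (Sym2 (Fin n))) : Prop :=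
  (∀ e ∈ A.output σ, e ∈ σ) ∧ IsMatch (A.output σ) ∧ α * (nu σ : ℝ) ≤ ((A.output σ).card : ℝ)

/-- The same algorithm in the format of the helper files. -/
def Alg.toS {n b : ℕ} (A : Alg n b) : SMG.SAlg (Fin n) b := ⟨A.init, A.step, A.out⟩

theorem run_toS {n b : ℕ} (A : Alg n b) (l : List (Sym2 (Fin n))) :
    ∀ (t : ℕ) (m : Fin (2 ^ b)), A.toS.runFrom t m l = A.run t m l := by
  induction l with
  | nil => intro t m; rfl
  | cons e l ih => intro t m; exact ih (t + 1) (A.step t m e)

theorem output_toS {n b : ℕ} (A : Alg n b) (σ : List (Sym2 (Fin n))) :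
    A.toS.output σ = A.output σ := by
  unfold SMG.SAlg.output Alg.output
  rw [run_toS A σ 0 A.toS.init]
  rfl

theorem success_toS {n b : ℕ} (α : ℝ) (A : Alg n b) (σ : List (Sym2 (Fin n))) :
    SMG.Success α A.toS σ ↔ Success α A σ := by
  unfold SMG.Success Success
  rw [output_toS]
  exact Iff.rfl

/-- For `α > 2 / (2 + √e)`, every randomised one-pass algorithm with at most `K n (log n) ^ c` bits
of memory fails, on some bipartite stream, to output a matching with at least `α ν` edges with
probability at least `1 - δ`, if `n` is large. -/
theorem result (α δ K : ℝ) (c : ℕ) (hα : 2 / (2 + Real.sqrt (Real.exp 1)) < α) (hδ : 0 < δ) :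
    ∀ᶠ n : ℕ in atTop, ∀ b : ℕ, (b : ℝ) ≤ K * n * Real.log n ^ c →
      ∀ (Ω : Type) [MeasurableSpace Ω] (P : Measure Ω) [IsProbabilityMeasure P]
        (A : Ω → Alg n b),
        (∀ σ, IsStream σ → MeasurableSet {ω | Success α (A ω) σ}) →
        ∃ σ : List (Sym2 (Fin n)), IsStream σ ∧ IsBip σ ∧
          P {ω | Success α (A ω) σ} ≤ ENNReal.ofReal δ := by
  filter_upwards [SMT.result α δ K c hα hδ] with n hn
  intro b hb Ω _ P _ A hA
  obtain ⟨σ, h1, h2, h3⟩ := hn b hb Ω P (fun ω => (A ω).toS) (by
    intro σ hσ
    have h := hA σ hσ
    have he : {ω | SMG.Success α (A ω).toS σ} = {ω | Success α (A ω) σ} := by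
      ext ω
      exact success_toS α (A ω) σ
    rw [he]
    exact h)
  refine ⟨σ, h1, h2, ?_⟩
  have he : {ω | SMG.Success α (A ω).toS σ} = {ω | Success α (A ω) σ} := by
    ext ω
    exact success_toS α (A ω) σ
  rw [← he]
  exact h3

end Pool.Agent.Results.MP_8d7caf_lc.MatchingBelowRootE
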