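import Pool.Agent.SMG.RUN
import Pool.Agent.SMG.INF
import Pool.Agent.SMG.AVG
import Pool.Agent.SMT.ALV
import Pool.Agent.SMT.PRE

/-! OUTB: for most parameters, a correct output has few edges of phase `i` in the special
direction `P j`, `i ≤ j`. -/

namespace SMT

open SMG

variable {Pos Dir T U : Type} {N D : ℕ}

theorem take_le {N n : ℕ} {k : Fin N} (h : k ∈ (List.finRange N).take (n + 1)) : (k : ℕ) ≤ n := by
  obtain ⟨l, hl, rfl⟩ := List.mem_take_iff_getElem.1 h
  rw [List.getElem_finRange]
  simp only [Fin.val_cast]
  omega

theorem drop_ge {N n : ℕ} {k : Fin N} (h : k ∈ (List.finRange N).drop (n + 1)) : n < (k : ℕ) := by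
  obtain ⟨l, hl, rfl⟩ := List.mem_drop_iff_getElem.1 h
  rw [List.getElem_finRange]
  simp only [Fin.val_cast]
  omega

/-- The part of the stream up to phase `i`. -/
noncomputable def preL [Fintype Pos] [Fintype Dir] [Fintype T] (C : TCert T U N)
    (G : Geo Pos Dir (Fin N → ZMod D)) (R : TRoles N D U C.cell) (i : ℕ)
    (P : Fin N → Dir) (X : Fin N → Dir → JJ Pos T → Bool) : List (Sym2 (VV Pos T)) :=
  ((List.finRange N).take (i + 1)).flatMap (fun k : Fin N => phaseList C G R P (k : ℕ) (X k))

/-- The part of the stream after phase `i`. -/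
noncomputable def restL [Fintype Pos] [Fintype Dir] [Fintype T] (C : TCert T U N)
    (G : Geo Pos Dir (Fin N → ZMod D)) (R : TRoles N D U C.cell) (i : ℕ)
    (P : Fin N → Dir) (X : Fin N → Dir → JJ Pos T → Bool) : List (Sym2 (VV Pos T)) :=
  ((List.finRange N).drop (i + 1)).flatMap (fun k : Fin N => phaseList C G R P (k : ℕ) (X k)) ++
    pendList C G R P

theorem stream_split [Fintype Pos] [Fintype Dir] [Fintype T] (C : TCert T U N)
    (G : Geo Pos Dir (Fin N → ZMod D)) (R : TRoles N D U C.cell) (i : ℕ)
    (P : Fin N → Dir) (X : Fin N → Dir → JJ Pos T → Bool) :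
    stream C G R P X = preL C G R i P X ++ restL C G R i P X := by
  unfold stream preL restL
  rw [← List.append_assoc, ← List.flatMap_append, List.take_append_drop]

theorem preL_congr [Fintype Pos] [Fintype Dir] [Fintype T] (C : TCert T U N)
    (G : Geo Pos Dir (Fin N → ZMod D)) (R : TRoles N D U C.cell) (i : ℕ)
    {P P' : Fin N → Dir} (h : ∀ l : Fin N, (l : ℕ) < i → P l = P' l)
    (X : Fin N → Dir → JJ Pos T → Bool) : preL C G R i P X = preL C G R i P' X := by
  unfold preL
  rw [List.flatMap_def, List.flatMap_def]
  congr 1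
  refine List.map_congr_left (fun k hk => ?_)
  exact phaseList_congr C G R (fun l hl => h l (hl.trans_le (take_le hk))) _

theorem preL_length [Fintype Pos] [Fintype Dir] [Fintype T] (C : TCert T U N)
    (G : Geo Pos Dir (Fin N → ZMod D)) (R : TRoles N D U C.cell) (i : ℕ)
    (P : Fin N → Dir) (X X' : Fin N → Dir → JJ Pos T → Bool) :
    (preL C G R i P X).length = (preL C G R i P X').length := by
  unfold preL
  rw [List.length_flatMap, List.length_flatMap]
  congr 1
  exact List.map_congr_left (fun k _ => phaseList_length C G R P (k : ℕ) (X k) (X' k))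

theorem restL_congr [Fintype Pos] [Fintype Dir] [Fintype T] (C : TCert T U N)
    (G : Geo Pos Dir (Fin N → ZMod D)) (R : TRoles N D U C.cell) (i : ℕ)
    (P : Fin N → Dir) {X X' : Fin N → Dir → JJ Pos T → Bool}
    (h : ∀ k : Fin N, i < (k : ℕ) → X k = X' k) : restL C G R i P X = restL C G R i P X' := by
  unfold restL
  rw [List.flatMap_def, List.flatMap_def]
  congr 2
  refine List.map_congr_left (fun k hk => ?_)
  rw [h k (drop_ge hk)]

open Classical in
theorem out_bound [Fintype Pos] [Fintype Dir] [Nonempty Dir] [Fintype T] (C : TCert T U N)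
    (G : Geo Pos Dir (Fin N → ZMod D)) (R : TRoles N D U C.cell)
    (b a B : ℕ) (η : ℝ) (hη : 0 < η)
    (hB : (b : ℝ) + Nat.card Dir + a ≤ η * B * Nat.card Dir)
    (A : SAlg (VV Pos T) b) (i j : Fin N) (hij : i ≤ j) :
    (Nat.card {θ : Par Pos Dir T N //
        (∀ e ∈ A.output (stream C G R θ.1 θ.2), e ∈ stream C G R θ.1 θ.2) ∧
        2 * B ≤ ((A.output (stream C G R θ.1 θ.2)).filter
          (fun e => e ∈ Spec C G R θ.1 (i : ℕ) (θ.1 j))).card} : ℝ) ≤
      (η + 1 / 2 ^ a) * Nat.card (Par Pos Dir T N) := by
  refine avg_update i j (fun θ : Par Pos Dir T N =>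
    (∀ e ∈ A.output (stream C G R θ.1 θ.2), e ∈ stream C G R θ.1 θ.2) ∧
        2 * B ≤ ((A.output (stream C G R θ.1 θ.2)).filter
          (fun e => e ∈ Spec C G R θ.1 (i : ℕ) (θ.1 j))).card) (η + 1 / 2 ^ a) ?_
  rintro ⟨P, Y⟩
  have key : ∀ (p : Dir) (x : Dir → JJ Pos T → Bool),
      A.output (stream C G R (Function.update P j p) (Function.update Y i x)) =
      A.out ((preL C G R (i : ℕ) P Y).length +
          (restL C G R (i : ℕ) (Function.update P j p) Y).length)
        (A.runFrom (0 + (preL C G R (i : ℕ) P Y).length)
          (A.runFrom 0 A.init (preL C G R (i : ℕ) P (Function.update Y i x)))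
          (restL C G R (i : ℕ) (Function.update P j p) Y)) := by
    intro p x
    have hP : ∀ l : Fin N, (l : ℕ) < (i : ℕ) → Function.update P j p l = P l := by
      intro l hl
      refine Function.update_of_ne ?_ _ _
      intro e
      have : (j : ℕ) ≤ (l : ℕ) := by rw [e]
      have h2 : (i : ℕ) ≤ (j : ℕ) := hij
      omega
    have hY : ∀ k : Fin N, (i : ℕ) < (k : ℕ) → Function.update Y i x k = Y k := by
      intro k hk
      refine Function.update_of_ne ?_ _ _
      intro e
      rw [e] at hk
      exact lt_irrefl _ hk
    unfold SAlg.output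
    rw [stream_split C G R (i : ℕ), runFrom_append, List.length_append,
      preL_congr C G R (i : ℕ) hP, restL_congr C G R (i : ℕ) _ hY,
      preL_length C G R (i : ℕ) P (Function.update Y i x) Y]
  have hinf := info (Dir := Dir) (J := JJ Pos T) (S := Fin (2 ^ b)) b a B η hη (by simp) hB
    (fun x => A.runFrom 0 A.init (preL C G R (i : ℕ) P (Function.update Y i x)))
    (fun m p => pred C G R (Function.update P j p)
      (A.out ((preL C G R (i : ℕ) P Y).length +
          (restL C G R (i : ℕ) (Function.update P j p) Y).length)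
        (A.runFrom (0 + (preL C G R (i : ℕ) P Y).length) m
          (restL C G R (i : ℕ) (Function.update P j p) Y))) (i : ℕ) p)
  refine le_trans ?_ hinf
  have hle : ∀ s : Dir × (Dir → JJ Pos T → Bool),
      ((∀ e ∈ A.output (stream C G R (Function.update P j s.1) (Function.update Y i s.2)),
          e ∈ stream C G R (Function.update P j s.1) (Function.update Y i s.2)) ∧
        2 * B ≤ ((A.output (stream C G R (Function.update P j s.1)
            (Function.update Y i s.2))).filter
          (fun e => e ∈ Spec C G R (Function.update P j s.1) (i : ℕ)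
            (Function.update P j s.1 j))).card) →
      (B ≤ Nat.card {jj : JJ Pos T // (pred C G R (Function.update P j s.1)
          (A.out ((preL C G R (i : ℕ) P Y).length +
            (restL C G R (i : ℕ) (Function.update P j s.1) Y).length)
          (A.runFrom (0 + (preL C G R (i : ℕ) P Y).length)
            (A.runFrom 0 A.init (preL C G R (i : ℕ) P (Function.update Y i s.2)))
            (restL C G R (i : ℕ) (Function.update P j s.1) Y))) (i : ℕ) s.1 jj).isSome} ∧
        ∀ (jj : JJ Pos T) (β : Bool), pred C G R (Function.update P j s.1)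
          (A.out ((preL C G R (i : ℕ) P Y).length +
            (restL C G R (i : ℕ) (Function.update P j s.1) Y).length)
          (A.runFrom (0 + (preL C G R (i : ℕ) P Y).length)
            (A.runFrom 0 A.init (preL C G R (i : ℕ) P (Function.update Y i s.2)))
            (restL C G R (i : ℕ) (Function.update P j s.1) Y))) (i : ℕ) s.1 jj = some β →
          s.2 s.1 jj = β) := by
    rintro ⟨p, x⟩ ⟨h1, h2⟩
    rw [← key p x]
    refine ⟨?_, ?_⟩
    · have h3 := spec_card C G R (Function.update P j p) (Function.update Y i x) _ h1 i p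
      rw [Function.update_self] at h2
      have h4 := h2.trans h3
      exact Nat.le_of_mul_le_mul_left h4 two_pos
    · intro jj β hβ
      have h3 := pred_correct C G R (Function.update P j p) (Function.update Y i x) _ h1 i p jj β hβ
      rwa [Function.update_self] at h3
  have hcard := Nat.card_mono (Set.toFinite _)
    (show {s : Dir × (Dir → JJ Pos T → Bool) |
      ((∀ e ∈ A.output (stream C G R (Function.update P j s.1) (Function.update Y i s.2)),
          e ∈ stream C G R (Function.update P j s.1) (Function.update Y i s.2)) ∧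
        2 * B ≤ ((A.output (stream C G R (Function.update P j s.1)
            (Function.update Y i s.2))).filter
          (fun e => e ∈ Spec C G R (Function.update P j s.1) (i : ℕ)
            (Function.update P j s.1 j))).card)} ⊆ _ from fun s hs => hle s hs)
  exact_mod_cast hcard

end SMT
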