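import Pool.Agent.SMT.Defs

/-! REC: the recursive inequality for the lines.

Induction as in the definition of `line`.  Write `β = bet m`, `y = 1 / (2 m)`, main part `M`
(age `j`), side part `V` (age `2 m - j`, opposite side), `B = Bf m (j + 1) = β * Bf m j`,
`Bf m (2 m - j) = 1 / Bf m j`.  If the root label is the side `s` take `Y = 1`, otherwise
`Y = Y_M`. -/

namespace SMT

/-- the inner nodes of a line of side `s` -/
private def rec_nd (s : Bool) (a : ℚ) (l r : Tr ℚ) : Tr ℚ :=
  .node (if s then a else 0) (if s then 0 else a) l r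

private theorem rec_P (s : Bool) (a : ℚ) (l r : Tr ℚ) (s' : Bool) :
    (rec_nd s a l r).P s' = l.P s' + r.P s' := by
  cases s' <;> simp [rec_nd, Tr.P, Tr.PA, Tr.PB]

private theorem rec_Z (s : Bool) (a : ℚ) (l r : Tr ℚ) :
    (rec_nd s a l r).Z = a * (l.P (!s) + r.P (!s)) + l.Z + r.Z := by
  cases s <;> simp [rec_nd, Tr.P, Tr.Z]

private theorem rec_FS (s : Bool) (a : ℚ) (l r : Tr ℚ) (S : List Bool → Bool) :
    (rec_nd s a l r).FS S = a * (rec_nd s a l r).Q s S + l.FS (fun v => S (false :: v)) +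
      r.FS (fun v => S (true :: v)) := by
  cases s <;> simp [rec_nd, Tr.Q, Tr.FS]

private theorem rec_Q (s : Bool) (a : ℚ) (l r : Tr ℚ) (S : List Bool → Bool) (s' : Bool) :
    (rec_nd s a l r).Q s' S = if S [] = s' then l.P s' + r.P s'
      else l.Q s' (fun v => S (false :: v)) + r.Q s' (fun v => S (true :: v)) := by
  cases s' <;> cases h : S [] <;> simp [rec_nd, Tr.P, Tr.Q, Tr.QA, Tr.QB, h]

private theorem rec_P_nonneg (t : Tr ℚ) (ht : t.Nonneg) (s : Bool) : 0 ≤ t.P s := by
  induction t with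
  | leaf p q =>
    obtain ⟨h1, h2⟩ := ht
    cases s
    · simpa [Tr.P, Tr.PB] using h2
    · simpa [Tr.P, Tr.PA] using h1
  | node a b l r ihl ihr =>
    obtain ⟨_, _, hl, hr⟩ := ht
    have h1 := ihl hl
    have h2 := ihr hr
    cases s
    · simp only [Tr.P, Tr.PB] at h1 h2 ⊢
      simp only [Bool.false_eq_true, if_false] at h1 h2 ⊢
      linarith
    · simp only [Tr.P, Tr.PA] at h1 h2 ⊢
      simp only [if_true] at h1 h2 ⊢
      linarith

private theorem rec_Q_le (t : Tr ℚ) (ht : t.Nonneg) (s : Bool) (S : List Bool → Bool) :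
    t.Q s S ≤ t.P s := by
  induction t generalizing S with
  | leaf p q =>
    obtain ⟨h1, h2⟩ := ht
    cases s
    · simpa [Tr.P, Tr.Q, Tr.PB, Tr.QB] using h2
    · simpa [Tr.P, Tr.Q, Tr.PA, Tr.QA] using h1
  | node a b l r ihl ihr =>
    obtain ⟨_, _, hl, hr⟩ := ht
    have h1 := ihl hl (fun v => S (false :: v))
    have h2 := ihr hr (fun v => S (true :: v))
    cases s
    · simp only [Tr.P, Tr.Q, Tr.PB, Tr.QB, Bool.false_eq_true, if_false] at h1 h2 ⊢
      split_ifs <;> linarith
    · simp only [Tr.P, Tr.Q, Tr.PA, Tr.QA, if_true] at h1 h2 ⊢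
      split_ifs <;> linarith

private theorem rec_bet_pos (m : ℕ) : 0 < bet m := by
  unfold bet; positivity

private theorem rec_Bf_pos (m j : ℕ) : 0 < Bf m j := by
  unfold Bf
  have := rec_bet_pos m
  positivity

private theorem rec_Bf_succ (m j : ℕ) : Bf m (j + 1) = bet m * Bf m j := by
  unfold Bf; rw [pow_succ]; ring

private theorem rec_Bf_inv (m j : ℕ) (hj : j ≤ 2 * m) : Bf m (2 * m - j) * Bf m j = 1 := by
  unfold Bf
  have h := rec_bet_pos m
  have h1 : bet m ^ (2 * m - j) * bet m ^ j = bet m ^ m * bet m ^ m := by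
    rw [← pow_add, ← pow_add]; congr 1; omega
  have h2 : bet m ^ m ≠ 0 := by positivity
  rw [div_mul_div_comm, h1, div_self (mul_ne_zero h2 h2)]

private theorem rec_line0 (m j : ℕ) (μ R : ℚ) (s : Bool) :
    line m 0 j μ R s = .leaf (if s then μ else 0) (if s then 0 else μ) := by
  rw [line]

private theorem rec_lineS0 (m k : ℕ) (μ R : ℚ) (s : Bool) :
    line m (k + 1) 0 μ R s = .leaf (if s then μ else 0) (if s then 0 else μ) := by
  rw [line]

private theorem rec_lineSS (m k j : ℕ) (μ R : ℚ) (s : Bool) :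
    line m (k + 1) (j + 1) μ R s = rec_nd s (R / (2 * m)) (line m (k + 1) j μ (bet m * R) s)
      (line m k (2 * m - j) (μ / (2 * m) / Bf m (j + 1)) (R * Bf m (j + 1)) (!s)) := by
  rw [line]; rfl

private theorem rec_leafP (μ : ℚ) (s : Bool) :
    (Tr.leaf (if s then μ else 0) (if s then 0 else μ) : Tr ℚ).P s = μ ∧
    (Tr.leaf (if s then μ else 0) (if s then 0 else μ) : Tr ℚ).P (!s) = 0 := by
  cases s <;> simp [Tr.P, Tr.PA, Tr.PB]

private theorem rec_leafQ (p q : ℚ) (s : Bool) (S : List Bool → Bool) :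
    (Tr.leaf p q : Tr ℚ).Q s S = 0 := by
  cases s <;> simp [Tr.Q, Tr.QA, Tr.QB]

private theorem rec_leafFS (p q : ℚ) (S : List Bool → Bool) : (Tr.leaf p q : Tr ℚ).FS S = 0 := rfl

private theorem rec_leafZ (p q : ℚ) : (Tr.leaf p q : Tr ℚ).Z = 0 := rfl

private theorem rec_leafNN (μ : ℚ) (hμ : 0 ≤ μ) (s : Bool) :
    (Tr.leaf (if s then μ else 0) (if s then 0 else μ) : Tr ℚ).Nonneg := by
  cases s
  · exact ⟨by simp, by simpa using hμ⟩
  · exact ⟨by simpa using hμ, by simp⟩

theorem line_nonneg (m : ℕ) (hm : 0 < m) (k j : ℕ) (μ R : ℚ) (hμ : 0 ≤ μ) (hR : 0 ≤ R)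
    (s : Bool) : (line m k j μ R s).Nonneg := by
  induction k generalizing j μ R s with
  | zero => rw [rec_line0]; exact rec_leafNN μ hμ s
  | succ k ihk =>
    induction j generalizing μ R s with
    | zero => rw [rec_lineS0]; exact rec_leafNN μ hμ s
    | succ j ihj =>
      rw [rec_lineSS]
      have hB := rec_Bf_pos m (j + 1)
      have hb := rec_bet_pos m
      have hmq : (0 : ℚ) < m := by exact_mod_cast hm
      refine ⟨?_, ?_, ihj μ (bet m * R) hμ (by positivity) s,
        ihk (2 * m - j) _ _ (by positivity) (by positivity) (!s)⟩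
      · split_ifs
        · positivity
        · exact le_rfl
      · split_ifs
        · exact le_rfl
        · positivity

theorem line_total (m : ℕ) (hm : 0 < m) (k j : ℕ) (hj : j ≤ 2 * m) (μ R : ℚ) (s : Bool) :
    R * (line m k j μ R s).P (!s) + Bf m j * R * (line m k j μ R s).P s +
      (line m k j μ R s).Z = R * μ * nuf m k j := by
  induction k generalizing j μ R s with
  | zero =>
    rw [rec_line0, (rec_leafP μ s).1, (rec_leafP μ s).2, rec_leafZ, nuf]
    ring
  | succ k ihk =>
    induction j generalizing μ R s with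
    | zero =>
      rw [rec_lineS0, (rec_leafP μ s).1, (rec_leafP μ s).2, rec_leafZ, nuf]
      ring
    | succ j ihj =>
      have hmq : (0 : ℚ) < m := by exact_mod_cast hm
      have hBj := rec_Bf_pos m j
      have hb := rec_bet_pos m
      have hinv := rec_Bf_inv m j (by omega)
      have hbd : bet m = 1 + 1 / (2 * m) := rfl
      rw [rec_lineSS, rec_P, rec_P, rec_Z, nuf]
      have h1 := ihj (by omega) μ (bet m * R) s
      have h2 := ihk (2 * m - j) (Nat.sub_le _ _) (μ / (2 * m) / Bf m (j + 1))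
        (R * Bf m (j + 1)) (!s)
      rw [Bool.not_not] at h2
      rw [rec_Bf_succ] at h2 ⊢
      set M := line m (k + 1) j μ (bet m * R) s
      set V := line m k (2 * m - j) (μ / (2 * m) / (bet m * Bf m j)) (R * (bet m * Bf m j)) (!s)
      have e1 : Bf m (2 * m - j) * (R * (bet m * Bf m j)) = R * bet m := by
        calc Bf m (2 * m - j) * (R * (bet m * Bf m j)) = R * bet m * (Bf m (2 * m - j) * Bf m j) := by
              ring
          _ = R * bet m := by rw [hinv, mul_one]
      have e2 : R * (bet m * Bf m j) * (μ / (2 * m) / (bet m * Bf m j)) = R * μ / (2 * m) := by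
        have : bet m * Bf m j ≠ 0 := by positivity
        field_simp
      rw [e1, e2] at h2
      have e3 : R * μ * (bet m * nuf m (k + 1) j + nuf m k (2 * m - j) / (2 * m)) =
          bet m * R * μ * nuf m (k + 1) j + R * μ / (2 * m) * nuf m k (2 * m - j) := by ring
      rw [e3, ← h1, ← h2]
      have e4 : R / (2 * m) = (bet m - 1) * R := by rw [hbd]; ring
      rw [e4]
      ring

private theorem rec_alg {R μ y β B Bj Bi ρ PsM PnM QsM QnM FM ZM PsV PnV QsV QnV FV ZV YM YV penM penV
    μ' R' Qs Qn Y : ℚ} (hR : 0 ≤ R) (hβ : β = 1 + y) (hB : B = β * Bj) (hBi : Bi * Bj = 1)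
    (hB0 : 0 < B) (hμ' : μ' * B = y * μ) (hR' : R' = R * B)
    (hM : β * R * (ρ * PnM - QsM + YM * μ + Bj * (ρ * PsM - QnM) - μ / 2) - β * R * μ * penM ≤
      FM - ρ * ZM)
    (hV : R' * (ρ * PsV - QnV + YV * μ' + Bi * (ρ * PnV - QsV) - μ' / 2) - R' * μ' * penV ≤
      FV - ρ * ZV)
    (key : 0 ≤ β * (Qs - QsM - QsV) + B * (Qn - QnM - QnV) + β * YM * μ + YV * y * μ - y * μ -
      Y * μ) :
    R * (ρ * (PnM + PnV) - Qs + Y * μ + B * (ρ * (PsM + PsV) - Qn) - μ / 2) -
        R * μ * (β * penM + y * penV) ≤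
      y * R * Qs + FM + FV - ρ * (y * R * (PnM + PnV) + ZM + ZV) := by
  have k2 := mul_nonneg hR key
  have e1 : R' * Bi = R * β := by
    rw [hR', hB]
    calc R * (β * Bj) * Bi = R * β * (Bi * Bj) := by ring
      _ = R * β := by rw [hBi, mul_one]
  have e2 : R' * μ' = R * (y * μ) := by rw [hR', ← hμ']; ring
  have e3 : R' * (ρ * PsV - QnV + YV * μ' + Bi * (ρ * PnV - QsV) - μ' / 2) - R' * μ' * penV =
      R * B * (ρ * PsV - QnV) + YV * (R * (y * μ)) + R * β * (ρ * PnV - QsV) - R * (y * μ) / 2 -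
        R * (y * μ) * penV := by
    calc R' * (ρ * PsV - QnV + YV * μ' + Bi * (ρ * PnV - QsV) - μ' / 2) - R' * μ' * penV
        = R' * (ρ * PsV - QnV) + YV * (R' * μ') + (R' * Bi) * (ρ * PnV - QsV) - (R' * μ') / 2 -
          (R' * μ') * penV := by ring
      _ = _ := by rw [e1, e2, hR']
  rw [e3] at hV
  have e4 : β * R * (ρ * PnM - QsM + YM * μ + Bj * (ρ * PsM - QnM) - μ / 2) - β * R * μ * penM =
      β * R * (ρ * PnM - QsM) + β * R * YM * μ + R * B * (ρ * PsM - QnM) - β * R * μ / 2 -
        β * R * μ * penM := by rw [hB]; ring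
  rw [e4] at hM
  subst hβ
  nlinarith [hM, hV, k2]

theorem line_ineq (m : ℕ) (hm : 0 < m) (k j : ℕ) (hj : j ≤ 2 * m) (μ R : ℚ) (hμ : 0 < μ)
    (hR : 0 ≤ R) (s : Bool) (S : List Bool → Bool) :
    ∃ Y : ℚ, 0 ≤ Y ∧ Y ≤ 1 ∧
      (line m k j μ R s).Q s S - Y * μ ≤ (line m k j μ R s).P s - μ ∧
      R * (rho m * (line m k j μ R s).P (!s) - (line m k j μ R s).Q s S + Y * μ +
          Bf m j * (rho m * (line m k j μ R s).P s - (line m k j μ R s).Q (!s) S) - μ / 2) -
        R * μ * pen m k j ≤
      (line m k j μ R s).FS S - rho m * (line m k j μ R s).Z := by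
  have hBrho : ∀ j, Bf m j * rho m = bet m ^ j / 2 := by
    intro j
    unfold Bf rho
    have h := rec_bet_pos m
    have h2 : bet m ^ m ≠ 0 := by positivity
    field_simp
  induction k generalizing j μ R s S with
  | zero =>
    refine ⟨0, le_rfl, zero_le_one, ?_, ?_⟩
    · rw [rec_line0, rec_leafQ, (rec_leafP μ s).1]; simp
    · rw [rec_line0, rec_leafQ, rec_leafQ, (rec_leafP μ s).1, (rec_leafP μ s).2, rec_leafZ,
        rec_leafFS, pen]
      have e : R * (rho m * 0 - 0 + 0 * μ + Bf m j * (rho m * μ - 0) - μ / 2) -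
          R * μ * ((bet m ^ j - 1) / 2) = R * μ * (Bf m j * rho m - bet m ^ j / 2) := by ring
      rw [e, hBrho]
      simp
  | succ k ihk =>
    induction j generalizing μ R s S with
    | zero =>
      refine ⟨0, le_rfl, zero_le_one, ?_, ?_⟩
      · rw [rec_lineS0, rec_leafQ, (rec_leafP μ s).1]; simp
      · rw [rec_lineS0, rec_leafQ, rec_leafQ, (rec_leafP μ s).1, (rec_leafP μ s).2, rec_leafZ,
          rec_leafFS, pen]
        have e : R * (rho m * 0 - 0 + 0 * μ + Bf m 0 * (rho m * μ - 0) - μ / 2) -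
            R * μ * 0 = R * μ * (Bf m 0 * rho m - 1 / 2) := by ring
        rw [e, hBrho]
        simp
    | succ j ihj =>
      have hmq : (0 : ℚ) < m := by exact_mod_cast hm
      have hb := rec_bet_pos m
      have hB := rec_Bf_pos m (j + 1)
      have hinv := rec_Bf_inv m j (by omega)
      have hy : (0 : ℚ) < 1 / (2 * m) := by positivity
      obtain ⟨YM, hYM0, hYM1, hM1, hM2⟩ := ihj (by omega) μ (bet m * R) hμ (by positivity) s
        (fun v => S (false :: v))
      obtain ⟨YV, hYV0, hYV1, hV1, hV2⟩ := ihk (2 * m - j) (Nat.sub_le _ _)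
        (μ / (2 * m) / Bf m (j + 1)) (R * Bf m (j + 1)) (by positivity) (by positivity) (!s)
        (fun v => S (true :: v))
      rw [Bool.not_not] at hV2
      have hNM := line_nonneg m hm (k + 1) j μ (bet m * R) hμ.le (by positivity) s
      have hNV := line_nonneg m hm k (2 * m - j) (μ / (2 * m) / Bf m (j + 1)) (R * Bf m (j + 1))
        (by positivity) (by positivity) (!s)
      have qM : ∀ s', (line m (k + 1) j μ (bet m * R) s).Q s' (fun v => S (false :: v)) ≤
          (line m (k + 1) j μ (bet m * R) s).P s' := fun s' => rec_Q_le _ hNM s' _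
      have qV : ∀ s', (line m k (2 * m - j) (μ / (2 * m) / Bf m (j + 1)) (R * Bf m (j + 1)) (!s)).Q
          s' (fun v => S (true :: v)) ≤
          (line m k (2 * m - j) (μ / (2 * m) / Bf m (j + 1)) (R * Bf m (j + 1)) (!s)).P s' :=
        fun s' => rec_Q_le _ hNV s' _
      have hμ'B : μ / (2 * m) / Bf m (j + 1) * Bf m (j + 1) = 1 / (2 * m) * μ := by
        have := hB.ne'
        field_simp
      have hbd : bet m = 1 + 1 / (2 * m) := rfl
      rw [rec_lineSS]
      simp only [rec_P, rec_Z, rec_FS, rec_Q]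
      rw [pen]
      generalize line m (k + 1) j μ (bet m * R) s = M at *
      generalize line m k (2 * m - j) (μ / (2 * m) / Bf m (j + 1)) (R * Bf m (j + 1)) (!s) = V at *
      generalize hμ'' : μ / (2 * m) / Bf m (j + 1) = μ' at *
      have e5 : pen m k (2 * m - j) / (2 * (m : ℚ)) = 1 / (2 * m) * pen m k (2 * m - j) := by ring
      have e6 : R / (2 * (m : ℚ)) = 1 / (2 * m) * R := by ring
      rw [e5, e6]
      by_cases hS : S [] = s
      · -- the label is `s`
        have hS' : ¬ (S [] = !s) := by rw [hS]; cases s <;> simp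
        refine ⟨1, zero_le_one, le_rfl, ?_, ?_⟩
        · rw [if_pos hS, one_mul]
        · rw [if_pos hS, if_neg hS']
          have q1 := qV s
          have hYV : 0 ≤ YV * (1 / (2 * (m : ℚ))) * μ := by positivity
          refine (rec_alg (Bj := Bf m j) (Bi := Bf m (2 * m - j)) hR hbd (rec_Bf_succ m j) hinv hB
            hμ'B rfl hM2 hV2 ?_).trans (le_of_eq ?_)
          · have h3 : 0 ≤ bet m * (M.P s - μ - (M.Q s (fun v => S (false :: v)) - YM * μ)) :=
              mul_nonneg hb.le (by linarith)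
            have h4 : 0 ≤ bet m * (V.P s - V.Q s (fun v => S (true :: v))) :=
              mul_nonneg hb.le (by linarith)
            have e7 : bet m * μ = μ + 1 / (2 * m) * μ := by rw [hbd]; ring
            linarith
          · ring
      · -- the label is the other side
        have hS' : S [] = !s := by
          cases hs : s <;> cases hS2 : S [] <;> simp_all
        refine ⟨YM, hYM0, hYM1, ?_, ?_⟩
        · rw [if_neg hS]
          have := qV s
          linarith
        · rw [if_neg hS, if_pos hS']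
          have q1 := qM (!s)
          refine (rec_alg (Bj := Bf m j) (Bi := Bf m (2 * m - j)) hR hbd (rec_Bf_succ m j) hinv hB
            hμ'B rfl hM2 hV2 ?_).trans (le_of_eq ?_)
          · have h3 : 0 ≤ Bf m (j + 1) * (V.P (!s) - μ' -
                (V.Q (!s) (fun v => S (true :: v)) - YV * μ')) :=
              mul_nonneg hB.le (by linarith)
            have h4 : 0 ≤ Bf m (j + 1) * (M.P (!s) - M.Q (!s) (fun v => S (false :: v))) :=
              mul_nonneg hB.le (by linarith)
            have e7 : Bf m (j + 1) * (V.P (!s) - μ' -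
                (V.Q (!s) (fun v => S (true :: v)) - YV * μ')) =
                Bf m (j + 1) * (V.P (!s) - V.Q (!s) (fun v => S (true :: v))) -
                (μ' * Bf m (j + 1)) + YV * (μ' * Bf m (j + 1)) := by ring
            rw [e7, hμ'B] at h3
            have h5 : 0 ≤ 1 / (2 * (m : ℚ)) * YM * μ := by positivity
            have e8 : bet m * YM * μ = YM * μ + 1 / (2 * m) * YM * μ := by rw [hbd]; ring
            linarith
          · ring

end SMT
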