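import Pool.Agent.SMT.FIN
import Pool.Agent.SMT.EXC

/-! RES: the theorem. -/

namespace SMT

open SMG Filter MeasureTheory

theorem result (α δ K : ℝ) (c : ℕ) (hα : 2 / (2 + Real.sqrt (Real.exp 1)) < α) (hδ : 0 < δ) :
    ∀ᶠ n : ℕ in atTop, ∀ b : ℕ, (b : ℝ) ≤ K * n * Real.log n ^ c →
      ∀ (Ω : Type) [MeasurableSpace Ω] (μ : Measure Ω) [IsProbabilityMeasure μ]
        (A : Ω → SAlg (Fin n) b),
        (∀ σ, IsStream σ → MeasurableSet {ω | Success α (A ω) σ}) →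
        ∃ σ : List (Sym2 (Fin n)), IsStream σ ∧ IsBip σ ∧
          μ {ω | Success α (A ω) σ} ≤ ENNReal.ofReal δ := by
  obtain ⟨T, U, _, _, _, N, C, hh, hC⟩ := exists_cert α hα
  exact main C hh α hC δ hδ c K

end SMT
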