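import Pool.Agent.SMT.KON
import Pool.Agent.SMT.LAB

/-! TCE: a tree gives a certificate.

Cells: `cell i u = (uaddr u).take i`; `join i u a b`: `a` left, `b` right, both born on the path
of `u`, and `i` is the maximum of the two depths; `opn u a`: `tside a = uside u` or `a` is not born
on the path of `u`; `M` from `konig` and `labelling`; `N` is the depth of the tree. -/

namespace SMT

private theorem pre_take {l w : List Bool} {i : ℕ} (h : l <+: w) (hl : l.length ≤ i) :
    l <+: w.take i := by
  rw [List.prefix_iff_eq_take] at h
  rw [h]
  exact List.take_prefix_take_left hl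

private theorem take_eq_of_max {a b u v : List Bool} (h1 : a <+: u) (h2 : b <+: v)
    (h3 : a <+: v) (h4 : b <+: u) :
    u.take (max a.length b.length) = v.take (max a.length b.length) := by
  rcases le_total a.length b.length with h | h
  · rw [max_eq_right h]
    rw [List.prefix_iff_eq_take] at h2 h4
    rw [← h4, ← h2]
  · rw [max_eq_left h]
    rw [List.prefix_iff_eq_take] at h1 h3
    rw [← h3, ← h1]

/-- The join relation. -/
def tjoin (t : Tr ℕ) (i : ℕ) (u : Un t) (a b : Ty t) : Prop :=
  tside t a = true ∧ tside t b = false ∧ taddr t a <+: uaddr t u ∧ taddr t b <+: uaddr t u ∧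
    i = max (taddr t a).length (taddr t b).length

/-- The open relation. -/
def topn (t : Tr ℕ) (u : Un t) (a : Ty t) : Prop :=
  ¬ (tside t a ≠ uside t u ∧ taddr t a <+: uaddr t u)

theorem tree_cert (t : Tr ℕ) (c : ℕ) (hc : ∀ S, c ≤ t.FS S) (hU : 0 < t.PA + t.PB) :
    ∃ (T U : Type) (_ : Fintype T) (_ : Fintype U) (_ : Nonempty U) (N : ℕ) (C : TCert T U N),
      C.z = t.Z ∧ C.h = c := by
  classical
  haveI hT : Finite (Ty t) := finite_Ty t
  haveI hUn : Finite (Un t) := finite_Un t
  haveI : Finite (LAtom t) := by unfold LAtom; infer_instance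
  haveI : Finite (RAtom t) := by unfold RAtom; infer_instance
  have hne : Nonempty (Un t) := by
    by_contra hcon
    rw [not_nonempty_iff] at hcon
    have h1 := card_unA t
    have h2 := card_unB t
    rw [Nat.card_of_isEmpty] at h1 h2
    omega
  obtain ⟨M, hMc, hMr, hMm⟩ := konig (adj t) c (by
    intro X Y h
    obtain ⟨S, hS⟩ := labelling t X Y h
    exact (hc S).trans hS)
  let f : LAtom t × RAtom t → (Ty t × Un t) × (Ty t × Un t) := fun m => (m.1.1, m.2.1)
  have hf : Function.Injective f := by
    rintro ⟨x, y⟩ ⟨x', y'⟩ h
    simp only [f, Prod.mk.injEq] at h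
    exact Prod.ext (Subtype.ext h.1) (Subtype.ext h.2)
  refine ⟨Ty t, Un t, Fintype.ofFinite _, Fintype.ofFinite _, hne, t.depth,
    { left := tside t
      cell := fun i u => (uaddr t u).take i
      cell_zero := by intro u u'; simp
      cell_mono := by
        intro i u u' h
        have := congrArg (List.take i) h
        simpa [List.take_take] using this
      join := tjoin t
      join_cell := by
        rintro i u u' a b h ⟨h1, h2, h3, h4, h5⟩
        refine ⟨h1, h2, ?_, ?_, h5⟩
        · have := pre_take h3 (show (taddr t a).length ≤ i by rw [h5]; exact le_max_left _ _)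
          rw [h] at this
          exact this.trans (List.take_prefix _ _)
        · have := pre_take h4 (show (taddr t b).length ≤ i by rw [h5]; exact le_max_right _ _)
          rw [h] at this
          exact this.trans (List.take_prefix _ _)
      join_uniq := by
        rintro i i' u a b ⟨_, _, _, _, h⟩ ⟨_, _, _, _, h'⟩
        rw [h, h']
      join_side := by
        rintro i u a b ⟨h1, h2, _⟩
        exact ⟨h1, h2⟩
      opn := topn t
      indep := by
        rintro i u a b ⟨h1, h2, h3, h4, _⟩ ⟨h5, h6⟩
        have h7 : tside t a = uside t u := by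
          by_contra hcon
          exact h5 ⟨hcon, h3⟩
        have h8 : tside t b = uside t u := by
          by_contra hcon
          exact h6 ⟨hcon, h4⟩
        rw [h1] at h7
        rw [h2, ← h7] at h8
        exact Bool.noConfusion h8
      M := M.image f
      M_spec := by
        intro m hm
        rw [Finset.mem_image] at hm
        obtain ⟨⟨x, y⟩, hxy, rfl⟩ := hm
        have hadj := hMr _ hxy
        obtain ⟨⟨a, u⟩, ha1, ha2, ha3⟩ := x
        obtain ⟨⟨b, v⟩, hb1, hb2, hb3⟩ := y
        obtain ⟨k1, k2⟩ := hadj
        simp only at ha1 ha2 ha3 hb1 hb2 hb3 k1 k2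
        refine ⟨?_, ?_, max (taddr t a).length (taddr t b).length, ?_, ?_, ?_⟩
        · rintro ⟨h1, _⟩
          exact h1 (by simp only [f]; rw [ha1, ha2])
        · rintro ⟨h1, _⟩
          exact h1 (by simp only [f]; rw [hb1, hb2])
        · exact max_lt (taddr_length t a) (taddr_length t b)
        · exact take_eq_of_max ha3 hb3 k1 k2
        · exact ⟨ha1, hb1, ha3, k2, rfl⟩
      M_match := by
        intro m hm m' hm' h
        rw [Finset.mem_image] at hm hm'
        obtain ⟨x, hx, rfl⟩ := hm
        obtain ⟨y, hy, rfl⟩ := hm'
        have : x = y := by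
          apply hMm x hx y hy
          rcases h with h | h
          · left; exact Subtype.ext h
          · right; exact Subtype.ext h
        rw [this] }, ?_, ?_⟩
  · have := card_closed t
    rw [← this]
    unfold TCert.z
    apply Nat.card_congr
    apply Equiv.subtypeEquivRight
    rintro ⟨a, u⟩
    simp only [topn, not_not]
  · unfold TCert.h
    simp only
    rw [Finset.card_image_of_injective _ hf, hMc]

end SMT
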