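import Pool.Agent.SMT.Defs

/-! TYF: the types and units of a tree are finite; counts of the units. -/

namespace SMT

/-- A subtype of a sum. -/
theorem card_sumsub {α β : Type} [Finite α] [Finite β] (p : α ⊕ β → Prop) :
    Nat.card {c // p c} = Nat.card {a : α // p (.inl a)} + Nat.card {b : β // p (.inr b)} := by
  rw [Nat.card_congr Equiv.subtypeSum, Nat.card_sum]

/-- A subtype of a product whose first factor is a sum. -/
theorem card_psub1 {α β γ : Type} [Finite α] [Finite β] [Finite γ] (p : (α ⊕ β) × γ → Prop) :
    Nat.card {s // p s} = Nat.card {s : α × γ // p (.inl s.1, s.2)} +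
      Nat.card {s : β × γ // p (.inr s.1, s.2)} := by
  have e : {s : (α ⊕ β) × γ // p s} ≃
      {s : α × γ ⊕ β × γ // p ((Equiv.sumProdDistrib α β γ).symm s)} :=
    (Equiv.sumProdDistrib α β γ).subtypeEquiv (fun s => by simp)
  rw [Nat.card_congr e, card_sumsub]
  rfl

/-- A subtype of a product whose second factor is a sum. -/
theorem card_psub2 {α β γ : Type} [Finite α] [Finite β] [Finite γ] (p : γ × (α ⊕ β) → Prop) :
    Nat.card {s // p s} = Nat.card {s : γ × α // p (s.1, .inl s.2)} +
      Nat.card {s : γ × β // p (s.1, .inr s.2)} := by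
  have e : {s : γ × (α ⊕ β) // p s} ≃
      {s : γ × α ⊕ γ × β // p ((Equiv.prodSumDistrib γ α β).symm s)} :=
    (Equiv.prodSumDistrib γ α β).subtypeEquiv (fun s => by simp)
  rw [Nat.card_congr e, card_sumsub]
  rfl

/-- A condition on the second factor only. -/
theorem card_finprod {γ : Type} (n : ℕ) (q : γ → Prop) :
    Nat.card {s : Fin n × γ // q s.2} = n * Nat.card {u : γ // q u} := by
  have e : {s : Fin n × γ // q s.2} ≃ Fin n × {u : γ // q u} :=
    { toFun := fun s => (s.1.1, ⟨s.1.2, s.2⟩)
      invFun := fun s => ⟨(s.1, s.2.1), s.2.2⟩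
      left_inv := fun s => rfl
      right_inv := fun s => rfl }
  rw [Nat.card_congr e, Nat.card_prod, Nat.card_fin]

theorem card_sub_empty {α : Type} (p : α → Prop) (h : ∀ a, ¬ p a) : Nat.card {a // p a} = 0 := by
  haveI : IsEmpty {a // p a} := ⟨fun a => h a.1 a.2⟩
  exact Nat.card_of_isEmpty

theorem card_sub_true {α : Type} (p : α → Prop) (h : ∀ a, p a) :
    Nat.card {a // p a} = Nat.card α :=
  Nat.card_congr (Equiv.subtypeUnivEquiv h)

theorem card_sub_congr {α : Type} (p q : α → Prop) (h : ∀ a, p a ↔ q a) :
    Nat.card {a // p a} = Nat.card {a // q a} :=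
  Nat.card_congr (Equiv.subtypeEquivRight h)

theorem finite_Ty (t : Tr ℕ) : Finite (Ty t) := by
  induction t with
  | leaf p q => exact (inferInstance : Finite Empty)
  | node a b l r hl hr =>
    haveI := hl
    haveI := hr
    exact (inferInstance : Finite ((Fin a ⊕ Fin b) ⊕ (Ty l ⊕ Ty r)))

theorem finite_Un (t : Tr ℕ) : Finite (Un t) := by
  induction t with
  | leaf p q => exact (inferInstance : Finite (Fin p ⊕ Fin q))
  | node a b l r hl hr =>
    haveI := hl
    haveI := hr
    exact (inferInstance : Finite (Un l ⊕ Un r))

instance instFiniteTy (t : Tr ℕ) : Finite (Ty t) := finite_Ty t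

instance instFiniteUn (t : Tr ℕ) : Finite (Un t) := finite_Un t

theorem card_unA (t : Tr ℕ) : Nat.card {u : Un t // uside t u = true} = t.PA := by
  induction t with
  | leaf p q =>
    refine (card_sumsub (α := Fin p) (β := Fin q)
      (fun u => uside (.leaf p q) u = true)).trans ?_
    exact congrArg₂ (· + ·) ((card_sub_true (α := Fin p) (fun _ => true = true)
      (fun a => rfl)).trans (Nat.card_fin p))
      (card_sub_empty (α := Fin q) (fun _ => false = true) (fun a h => Bool.noConfusion h))
  | node a b l r hl hr =>
    refine (card_sumsub (α := Un l) (β := Un r)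
      (fun u => uside (.node a b l r) u = true)).trans ?_
    exact congrArg₂ (· + ·) hl hr

theorem card_unB (t : Tr ℕ) : Nat.card {u : Un t // uside t u = false} = t.PB := by
  induction t with
  | leaf p q =>
    refine (card_sumsub (α := Fin p) (β := Fin q)
      (fun u => uside (.leaf p q) u = false)).trans ?_
    refine (congrArg₂ (· + ·)
      (card_sub_empty (α := Fin p) (fun _ => true = false) (fun a h => Bool.noConfusion h))
      ((card_sub_true (α := Fin q) (fun _ => false = false)
      (fun a => rfl)).trans (Nat.card_fin q))).trans ?_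
    exact Nat.zero_add q
  | node a b l r hl hr =>
    refine (card_sumsub (α := Un l) (β := Un r)
      (fun u => uside (.node a b l r) u = false)).trans ?_
    exact congrArg₂ (· + ·) hl hr

/-- The decomposition of the pairs of a node. -/
theorem card_node (a b : ℕ) (l r : Tr ℕ)
    (p : Ty (.node a b l r) × Un (.node a b l r) → Prop) :
    Nat.card {s // p s} =
      (Nat.card {s : Fin a × Un (.node a b l r) // p (.inl (.inl s.1), s.2)} +
        Nat.card {s : Fin b × Un (.node a b l r) // p (.inl (.inr s.1), s.2)}) +
      ((Nat.card {s : Ty l × Un l // p (.inr (.inl s.1), .inl s.2)} +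
        Nat.card {s : Ty l × Un r // p (.inr (.inl s.1), .inr s.2)}) +
       (Nat.card {s : Ty r × Un l // p (.inr (.inr s.1), .inl s.2)} +
        Nat.card {s : Ty r × Un r // p (.inr (.inr s.1), .inr s.2)})) := by
  refine (card_psub1 (α := Fin a ⊕ Fin b) (β := Ty l ⊕ Ty r) (γ := Un (.node a b l r)) p).trans ?_
  refine congrArg₂ (· + ·) ?_ ?_
  · exact card_psub1 (α := Fin a) (β := Fin b) (γ := Un (.node a b l r))
      (fun s => p (.inl s.1, s.2))
  · refine (card_psub1 (α := Ty l) (β := Ty r) (γ := Un (.node a b l r))
      (fun s => p (.inr s.1, s.2))).trans ?_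
    refine congrArg₂ (· + ·) ?_ ?_
    · exact card_psub2 (α := Un l) (β := Un r) (γ := Ty l) (fun s => p (.inr (.inl s.1), s.2))
    · exact card_psub2 (α := Un l) (β := Un r) (γ := Ty r) (fun s => p (.inr (.inr s.1), s.2))

theorem cons_pre (x y : Bool) (v w : List Bool) : x :: v <+: y :: w ↔ x = y ∧ v <+: w :=
  List.cons_prefix_cons

/-- The closed pairs. -/
theorem card_closed (t : Tr ℕ) :
    Nat.card {s : Ty t × Un t // tside t s.1 ≠ uside t s.2 ∧ taddr t s.1 <+: uaddr t s.2} =
      t.Z := by
  induction t with
  | leaf p q =>
    exact card_sub_empty _ (fun s => s.1.elim)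
  | node a b l r hl hr =>
    refine (card_node a b l r _).trans ?_
    have h1 : Nat.card {s : Fin a × Un (.node a b l r) //
        (true ≠ uside (.node a b l r) s.2 ∧ ([] : List Bool) <+: uaddr (.node a b l r) s.2)} =
        a * (l.PB + r.PB) := by
      refine (card_finprod a (fun u : Un (.node a b l r) =>
        true ≠ uside (.node a b l r) u ∧ ([] : List Bool) <+: uaddr (.node a b l r) u)).trans ?_
      refine congrArg (a * ·) ?_
      refine (card_sub_congr _ (fun u => uside (.node a b l r) u = false) (fun u => ?_)).trans
        (card_unB (.node a b l r))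
      simp only [List.nil_prefix, and_true]
      cases uside (.node a b l r) u <;> simp
    have h2 : Nat.card {s : Fin b × Un (.node a b l r) //
        (false ≠ uside (.node a b l r) s.2 ∧ ([] : List Bool) <+: uaddr (.node a b l r) s.2)} =
        b * (l.PA + r.PA) := by
      refine (card_finprod b (fun u : Un (.node a b l r) =>
        false ≠ uside (.node a b l r) u ∧ ([] : List Bool) <+: uaddr (.node a b l r) u)).trans ?_
      refine congrArg (b * ·) ?_
      refine (card_sub_congr _ (fun u => uside (.node a b l r) u = true) (fun u => ?_)).trans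
        (card_unA (.node a b l r))
      simp only [List.nil_prefix, and_true]
      cases uside (.node a b l r) u <;> simp
    have h3 : Nat.card {s : Ty l × Un l //
        (tside l s.1 ≠ uside l s.2 ∧ false :: taddr l s.1 <+: false :: uaddr l s.2)} = l.Z := by
      refine (card_sub_congr _ _ (fun s => ?_)).trans hl
      simp
    have h4 : Nat.card {s : Ty l × Un r //
        (tside l s.1 ≠ uside r s.2 ∧ false :: taddr l s.1 <+: true :: uaddr r s.2)} = 0 := by
      refine card_sub_empty _ (fun s => ?_)
      simp
    have h5 : Nat.card {s : Ty r × Un l //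
        (tside r s.1 ≠ uside l s.2 ∧ true :: taddr r s.1 <+: false :: uaddr l s.2)} = 0 := by
      refine card_sub_empty _ (fun s => ?_)
      simp
    have h6 : Nat.card {s : Ty r × Un r //
        (tside r s.1 ≠ uside r s.2 ∧ true :: taddr r s.1 <+: true :: uaddr r s.2)} = r.Z := by
      refine (card_sub_congr _ _ (fun s => ?_)).trans hr
      simp
    have e : (Tr.node a b l r).Z = (a * (l.PB + r.PB) + b * (l.PA + r.PA)) +
        ((l.Z + 0) + (0 + r.Z)) := by
      simp only [Tr.Z]
      ring
    rw [e]
    exact congrArg₂ (· + ·) (congrArg₂ (· + ·) h1 h2)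
      (congrArg₂ (· + ·) (congrArg₂ (· + ·) h3 h4) (congrArg₂ (· + ·) h5 h6))

theorem taddr_length (t : Tr ℕ) (a : Ty t) : (taddr t a).length < t.depth := by
  induction t with
  | leaf p q => exact a.elim
  | node x y l r hl hr =>
    rcases a with a | a | a
    · show (0 : ℕ) < max l.depth r.depth + 1
      omega
    · show (false :: taddr l a).length < max l.depth r.depth + 1
      have := hl a
      simp only [List.length_cons]
      omega
    · show (true :: taddr r a).length < max l.depth r.depth + 1
      have := hr a
      simp only [List.length_cons]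
      omega

/-- A type is never born at the leaf of a unit. -/
theorem taddr_ne (t : Tr ℕ) (a : Ty t) (u : Un t) (h : taddr t a <+: uaddr t u) :
    taddr t a ≠ uaddr t u := by
  induction t with
  | leaf p q => exact a.elim
  | node x y l r hl hr =>
    rcases a with a | a | a
    · rcases u with u | u
      · show ([] : List Bool) ≠ false :: uaddr l u
        simp
      · show ([] : List Bool) ≠ true :: uaddr r u
        simp
    · rcases u with u | u
      · change false :: taddr l a <+: false :: uaddr l u at h
        show false :: taddr l a ≠ false :: uaddr l u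
        have := hl a u ((cons_pre _ _ _ _).1 h).2
        simpa using this
      · show false :: taddr l a ≠ true :: uaddr r u
        simp
    · rcases u with u | u
      · show true :: taddr r a ≠ false :: uaddr l u
        simp
      · change true :: taddr r a <+: true :: uaddr r u at h
        show true :: taddr r a ≠ true :: uaddr r u
        have := hr a u ((cons_pre _ _ _ _).1 h).2
        simpa using this

end SMT
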